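import Pool.Agent.Y153.SV.Pair

set_option autoImplicit false
set_option maxHeartbeats 1000000

/-!
Sieve for `Y711`: the number of the solutions with given `G`, `Q`, `deg A`.
-/

open Polynomial Classical

namespace Pool.Agent.Y153.SV

open Pool.Agent.Y711 Pool.Agent.W313.Hyp

section

variable {k : Type} [Field k] [Finite k]

theorem mem_SFn {g : ℕ} {m n : k[X]} {x : k[X] × k[X] × k[X] × k[X]} :
    x ∈ SFn g m n ↔ ∃ D, IsD g m D ∧ IsSol g D x.1 x.2.1 x.2.2.1 x.2.2.2 ∧ IsCoprime D n := by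
  unfold SFn
  rw [Finset.mem_filter, mem_SF]
  constructor
  · exact fun h => h.2
  · rintro ⟨D, h1, h2, h3⟩
    exact ⟨⟨D, h1, h2⟩, D, h1, h2, h3⟩

theorem SFn_sub (g : ℕ) (m n : k[X]) : SFn g m n ⊆ SF g m := Finset.filter_subset _ _

theorem mo_monic {m : k[X]} (hm : m.Monic) (G : k[X]) : (mo m G).Monic := by
  have h1 := mo_mul hm.ne_zero G
  have h2 := mgcd_monic (a := G) hm.ne_zero
  have h3 : (mo m G * mgcd G m).Monic := by
    rw [h1]
    exact hm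
  exact h2.of_mul_monic_right h3

theorem fib_aux' (h2 : (2 : k) ≠ 0) {g : ℕ} {m n : k[X]} (hm : m.Monic) (hn : n.Monic)
    (hsq : Squarefree (m * n)) (G Q : k[X]) (a ρ : ℕ)
    (hint : ∀ A B B' D D' : k[X], A.natDegree = a → IsD g m D → IsSol g D G A B Q → IsD g m D' →
      IsSol g D' G A B' Q → (B - B').degree < ρ)
    (hne : ((SFn g m n).filter fun x => x.1 = G ∧ x.2.2.2 = Q ∧ x.2.1.natDegree = a).Nonempty)
    (ha : (Q * mo m G * mgcd G m * mo n Q).natDegree ≤ a)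
    (hρ : (Q ^ 2 * mo m G * (mo m G * mgcd Q n) * mo n Q).natDegree ≤ ρ) :
    ((SFn g m n).filter fun x => x.1 = G ∧ x.2.2.2 = Q ∧ x.2.1.natDegree = a).card ≤
      Nat.card k ^ (a - (Q * mo m G * mgcd G m * mo n Q).natDegree) *
        (Nat.card k ^ (ρ - (Q ^ 2 * mo m G * (mo m G * mgcd Q n) * mo n Q).natDegree) *
          (phi (Q * mo m G) * phi (mgcd G m) * phi (mo m G * mgcd Q n) *
            (Nat.card k ^ (mo n Q).natDegree * phi (mo n Q)))) := by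
  obtain ⟨x0, hx0⟩ := hne
  rw [Finset.mem_filter, mem_SFn] at hx0
  obtain ⟨⟨D0, hD0, hs0, hDn0⟩, hG0, hQ0, hA0⟩ := hx0
  rw [hG0, hQ0] at hs0
  obtain ⟨D₁, hGD, _, _, f1, f2, _, _, _⟩ := hs0.facts hD0
  have hsn : Squarefree n := hsq.squarefree_of_dvd (dvd_mul_left _ _)
  have hmm := mo_mul hm.ne_zero G
  have hmo0 : mo m G ≠ 0 := (mo_monic hm G).ne_zero
  have hmg0 : mgcd G m ≠ 0 := (mgcd_monic hm.ne_zero).ne_zero
  have hnn := mo_mul hn.ne_zero Q
  have hmoQ := mo_monic hn Q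
  have hsmoQ : Squarefree (mo n Q) := hsn.squarefree_of_dvd (Dvd.intro _ hnn)
  have hmnc : IsCoprime m n := by
    refine isCoprime_of_prime_dvd (fun h => hm.ne_zero h.1) fun P hP h1 h2 => ?_
    exact hP.not_unit (hsq P (mul_dvd_mul h1 h2))
  have hGn : IsCoprime G n := hDn0.of_isCoprime_of_dvd_left (hGD ▸ dvd_mul_right _ _)
  have hmoQn : mo n Q ∣ n := Dvd.intro _ hnn
  have hcn : IsCoprime (Q * mo m G * mgcd G m) (mo n Q) := by
    rw [mul_assoc, hmm]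
    exact (mo_cop hsn Q).mul_left (hmnc.of_isCoprime_of_dvd_right hmoQn)
  have hpc := pair_count' h2 hs0.Q0 hmo0 hmg0 (mgcd_monic (a := Q) hn.ne_zero).ne_zero hmoQ hsmoQ
    (mgcd_dvd_left Q n) f1 (hGn.of_isCoprime_of_dvd_right hmoQn) f2 hcn
    (kap_ne (k := k) (G.natDegree + a)) ha hρ (Bo g m G Q)
  rw [← hpc, Finset.card_eq_sum_card_fiberwise (f := fun x => x.2.1) (t := MD k a) (by
    intro x hx
    rw [Finset.mem_coe, Finset.mem_filter, mem_SFn] at hx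
    obtain ⟨⟨D, hD, hs, _⟩, _, _, h3⟩ := hx
    rw [Finset.mem_coe, mem_MD]
    exact ⟨hs.hA, h3⟩)]
  apply Finset.sum_le_sum
  intro A hA
  rw [mem_MD] at hA
  rw [Finset.filter_filter]
  rcases Finset.eq_empty_or_nonempty ((SFn g m n).filter fun x =>
    (x.1 = G ∧ x.2.2.2 = Q ∧ x.2.1.natDegree = a) ∧ x.2.1 = A) with he | hne
  · rw [he, Finset.card_empty]
    exact Nat.zero_le _
  · obtain ⟨x1, hx1⟩ := hne
    rw [Finset.mem_filter, mem_SFn] at hx1
    obtain ⟨⟨D1, hD1, hs1, _⟩, ⟨hG1, hQ1, _⟩, hA1⟩ := hx1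
    rw [hG1, hQ1, hA1] at hs1
    obtain ⟨_, _, _, _, _, _, f3, _, _⟩ := hs1.facts hD1
    rw [if_pos f3]
    have hex : ∃ B D, IsD g m D ∧ IsSol g D G A B Q := ⟨_, D1, hD1, hs1⟩
    obtain ⟨D2, hD2, hs2⟩ : ∃ D, IsD g m D ∧ IsSol g D G A (Bo g m G Q A) Q := by
      unfold Bo
      rw [dif_pos hex]
      exact hex.choose_spec
    refine Finset.card_le_card_of_injOn (fun x => x.2.2.1 - Bo g m G Q A) ?_ ?_
    · intro x hx
      rw [Finset.mem_coe, Finset.mem_filter, mem_SFn] at hx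
      obtain ⟨⟨D, hD, hs, hDn⟩, ⟨hG3, hQ3, _⟩, hA3⟩ := hx
      rw [hG3, hQ3, hA3] at hs
      obtain ⟨D₁, hDD, _, heq, _, _, _, f4, f5⟩ := hs.facts hD
      rw [hA.2] at f4 f5 heq
      rw [Finset.mem_coe, Finset.mem_filter, mem_LT]
      refine ⟨hint A _ _ D D2 hA.2 hD hs hD2 hs2, ?_⟩
      dsimp only
      rw [add_sub_cancel]
      have hD1n : IsCoprime D₁ n := hDn.of_isCoprime_of_dvd_left (hDD ▸ dvd_mul_left _ _)
      have hN0 : Q ^ 2 * mo m G ≠ 0 := mul_ne_zero (pow_ne_zero 2 hs.Q0) hmo0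
      refine ⟨⟨f4, f5.mul_right ?_⟩, ?_⟩
      · obtain ⟨D₂, hD₂⟩ := f4
        rw [hD₂, mul_div_cancel_left₀ _ hN0]
        have h3 : D₂ ∣ D₁ := by
          refine ⟨mo m G, ?_⟩
          apply mul_right_cancel₀ (pow_ne_zero 2 hs.Q0)
          rw [heq, hD₂]
          ring
        exact (hD1n.of_isCoprime_of_dvd_left h3).of_isCoprime_of_dvd_right (mgcd_dvd_right Q n)
      · rw [← heq]
        exact (hD1n.of_isCoprime_of_dvd_right hmoQn).mul_left ((mo_cop hsn Q).pow_left)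
    · intro x hx y hy hxy
      rw [Finset.mem_coe, Finset.mem_filter] at hx hy
      obtain ⟨_, ⟨hG3, hQ3, _⟩, hA3⟩ := hx
      obtain ⟨_, ⟨hG4, hQ4, _⟩, hA4⟩ := hy
      dsimp only at hxy
      have hB : x.2.2.1 = y.2.2.1 := by linear_combination hxy
      ext1
      · rw [hG3, hG4]
      · ext1
        · rw [hA3, hA4]
        · ext1
          · exact hB
          · rw [hQ3, hQ4]

theorem mono_aux {x1 x2 a b c d e : ℝ} (h1 : 0 ≤ x1) (h2 : 0 ≤ x2) (hc : 0 ≤ c) (hd : 0 ≤ d)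
    (he : 0 ≤ e) (hab : a ≤ b) : x1 * (x2 * (a * c * d * e)) ≤ x1 * (x2 * (b * c * d * e)) := by
  gcongr

theorem fib_real' (h2 : (2 : k) ≠ 0) {g : ℕ} {m n : k[X]} (hm : m.Monic) (hn : n.Monic)
    (hsq : Squarefree (m * n)) (G Q : k[X]) (a ρ : ℕ)
    (hint : ∀ A B B' D D' : k[X], A.natDegree = a → IsD g m D → IsSol g D G A B Q → IsD g m D' →
      IsSol g D' G A B' Q → (B - B').degree < ρ)
    (hne : ((SFn g m n).filter fun x => x.1 = G ∧ x.2.2.2 = Q ∧ x.2.1.natDegree = a).Nonempty)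
    (ha : Q.natDegree + m.natDegree + n.natDegree ≤ a)
    (hρ : 2 * Q.natDegree + 2 * m.natDegree + 2 * n.natDegree ≤ ρ) :
    (((SFn g m n).filter fun x => x.1 = G ∧ x.2.2.2 = Q ∧ x.2.1.natDegree = a).card : ℝ) ≤
      (Nat.card k : ℝ) ^ a * (Nat.card k : ℝ) ^ ρ / (Nat.card k : ℝ) ^ (2 * Q.natDegree) *
        (wt m G * (rphi n * (if IsCoprime Q (mgcd G m) then rphi (mgcd Q n) else 0))) := by
  have hne' := hne
  obtain ⟨x0, hx0⟩ := hne'
  rw [Finset.mem_filter, mem_SFn] at hx0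
  obtain ⟨⟨D0, hD0, hs0, hDn0⟩, hG0, hQ0, hA0⟩ := hx0
  rw [hG0, hQ0] at hs0
  obtain ⟨D₁, hGD, _, _, f1, f2, _, _, _⟩ := hs0.facts hD0
  have hsm : Squarefree m := hsq.squarefree_of_dvd (dvd_mul_right _ _)
  have hsn : Squarefree n := hsq.squarefree_of_dvd (dvd_mul_left _ _)
  have hmm := mo_mul hm.ne_zero G
  have hmoM := mo_monic hm G
  have hmo0 : mo m G ≠ 0 := hmoM.ne_zero
  have hmg0 : mgcd G m ≠ 0 := (mgcd_monic hm.ne_zero).ne_zero
  have hnn := mo_mul hn.ne_zero Q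
  have hmoQ := mo_monic hn Q
  have hQ := hs0.Q0
  have hn10 : mgcd Q n ≠ 0 := (mgcd_monic (a := Q) hn.ne_zero).ne_zero
  have hdm : m.natDegree = (mo m G).natDegree + (mgcd G m).natDegree := by
    conv_lhs => rw [← hmm]
    exact natDegree_mul hmo0 hmg0
  have hdn : n.natDegree = (mo n Q).natDegree + (mgcd Q n).natDegree := by
    conv_lhs => rw [← hnn]
    exact natDegree_mul hmoQ.ne_zero hn10
  have hmnc : IsCoprime m n := by
    refine isCoprime_of_prime_dvd (fun h => hm.ne_zero h.1) fun P hP h1 h2 => ?_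
    exact hP.not_unit (hsq P (mul_dvd_mul h1 h2))
  have e1 : (Q * mo m G * mgcd G m * mo n Q).natDegree =
      Q.natDegree + m.natDegree + (mo n Q).natDegree := by
    rw [mul_assoc Q, hmm, natDegree_mul (mul_ne_zero hQ hm.ne_zero) hmoQ.ne_zero,
      natDegree_mul hQ hm.ne_zero]
  have e2 : (Q ^ 2 * mo m G * (mo m G * mgcd Q n) * mo n Q).natDegree =
      2 * Q.natDegree + 2 * (mo m G).natDegree + n.natDegree := by
    rw [natDegree_mul (mul_ne_zero (mul_ne_zero (pow_ne_zero 2 hQ) hmo0) (mul_ne_zero hmo0 hn10))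
      hmoQ.ne_zero, natDegree_mul (mul_ne_zero (pow_ne_zero 2 hQ) hmo0) (mul_ne_zero hmo0 hn10),
      natDegree_mul (pow_ne_zero 2 hQ) hmo0, natDegree_mul hmo0 hn10, natDegree_pow, hdn]
    ring
  have h3 := fib_aux' h2 hm hn hsq G Q a ρ hint hne (by rw [e1]; omega) (by rw [e2]; omega)
  rw [e1, e2] at h3
  have hcop : IsCoprime (mo m G) (mgcd G m) :=
    ((mo_cop hsm G).of_isCoprime_of_dvd_left (mgcd_dvd_left G m)).symm
  have h4 : phi m = phi (mo m G) * phi (mgcd G m) := by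
    conv_lhs => rw [← hmm]
    exact phi_mul hmo0 hmg0 hcop
  have hcopn : IsCoprime (mo n Q) (mgcd Q n) :=
    ((mo_cop hsn Q).of_isCoprime_of_dvd_left (mgcd_dvd_left Q n)).symm
  have h4n : phi n = phi (mo n Q) * phi (mgcd Q n) := by
    conv_lhs => rw [← hnn]
    exact phi_mul hmoQ.ne_zero hn10 hcopn
  have hc1 : IsCoprime (mo m G) (mgcd Q n) :=
    (hmnc.of_isCoprime_of_dvd_left (Dvd.intro _ hmm)).of_isCoprime_of_dvd_right
      (mgcd_dvd_right Q n)
  have h6 : phi (mo m G * mgcd Q n) = phi (mo m G) * phi (mgcd Q n) := phi_mul hmo0 hn10 hc1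
  -- the sharper bound
  obtain ⟨Q', hQ'⟩ := mgcd_dvd_left Q n
  have hQ'0 : Q' ≠ 0 := by
    rintro rfl
    rw [mul_zero] at hQ'
    exact hQ hQ'
  have hdQ : Q.natDegree = (mgcd Q n).natDegree + Q'.natDegree := by
    conv_lhs => rw [hQ']
    exact natDegree_mul hn10 hQ'0
  have h5 : phi (Q * mo m G) ≤ Nat.card k ^ Q'.natDegree * (phi (mo m G) * phi (mgcd Q n)) := by
    rw [← h6]
    have h7 : Q * mo m G = Q' * (mo m G * mgcd Q n) := by
      conv_lhs => rw [hQ']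
      ring
    rw [h7]
    exact phi_mul_le hQ'0 (mul_ne_zero hmo0 hn10)
  have hq0 : (0 : ℝ) < Nat.card k := by exact_mod_cast Nat.card_pos
  have hq : (Nat.card k : ℝ) ≠ 0 := hq0.ne'
  have h3' : (((SFn g m n).filter fun x => x.1 = G ∧ x.2.2.2 = Q ∧
      x.2.1.natDegree = a).card : ℝ) ≤
      (Nat.card k : ℝ) ^ (a - (Q.natDegree + m.natDegree + (mo n Q).natDegree)) *
        ((Nat.card k : ℝ) ^ (ρ - (2 * Q.natDegree + 2 * (mo m G).natDegree + n.natDegree)) *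
          (phi (Q * mo m G) * phi (mgcd G m) * phi (mo m G * mgcd Q n) *
            ((Nat.card k : ℝ) ^ (mo n Q).natDegree * phi (mo n Q)))) := by exact_mod_cast h3
  have h5' : (phi (Q * mo m G) : ℝ) ≤
      (Nat.card k : ℝ) ^ Q'.natDegree * (phi (mo m G) * phi (mgcd Q n)) := by
    exact_mod_cast h5
  have h6' : (phi (mo m G * mgcd Q n) : ℝ) = phi (mo m G) * phi (mgcd Q n) := by exact_mod_cast h6
  refine h3'.trans ?_
  rw [if_pos f2.of_mul_left_left, pow_sub₀ _ hq (by omega), pow_sub₀ _ hq (by omega), h6']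
  have h4' : (phi m : ℝ) = phi (mo m G) * phi (mgcd G m) := by exact_mod_cast h4
  have h4n' : (phi n : ℝ) = phi (mo n Q) * phi (mgcd Q n) := by exact_mod_cast h4n
  have h8 : (Nat.card k : ℝ) ^ a * (Nat.card k : ℝ) ^ ρ / (Nat.card k : ℝ) ^ (2 * Q.natDegree) *
        (wt m G * (rphi n * rphi (mgcd Q n))) =
      (Nat.card k : ℝ) ^ a *
        ((Nat.card k : ℝ) ^ (Q.natDegree + m.natDegree + (mo n Q).natDegree))⁻¹ *
      ((Nat.card k : ℝ) ^ ρ *
        ((Nat.card k : ℝ) ^ (2 * Q.natDegree + 2 * (mo m G).natDegree + n.natDegree))⁻¹ *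
      ((Nat.card k : ℝ) ^ Q'.natDegree * (phi (mo m G) * phi (mgcd Q n)) * phi (mgcd G m) *
        (phi (mo m G) * phi (mgcd Q n)) *
            ((Nat.card k : ℝ) ^ (mo n Q).natDegree * phi (mo n Q)))) := by
    unfold wt rphi
    rw [h4', h4n', pow_add _ (Q.natDegree + m.natDegree), pow_add _ Q.natDegree,
      pow_add _ (2 * Q.natDegree + 2 * (mo m G).natDegree), pow_add _ (2 * Q.natDegree),
      show (Nat.card k : ℝ) ^ Q.natDegree =
        (Nat.card k : ℝ) ^ (mgcd Q n).natDegree * (Nat.card k : ℝ) ^ Q'.natDegree by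
          rw [← pow_add, hdQ]]
    field_simp
  rw [h8]
  exact mono_aux (mul_nonneg (pow_nonneg hq0.le _) (inv_nonneg.2 (pow_nonneg hq0.le _)))
    (mul_nonneg (pow_nonneg hq0.le _) (inv_nonneg.2 (pow_nonneg hq0.le _)))
    (Nat.cast_nonneg _) (mul_nonneg (Nat.cast_nonneg _) (Nat.cast_nonneg _))
    (mul_nonneg (pow_nonneg hq0.le _) (Nat.cast_nonneg _)) h5'

end

end Pool.Agent.Y153.SV
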