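import Pool.Agent.Y153.SV.Fib

set_option autoImplicit false
set_option maxHeartbeats 1000000

/-!
Sieve for `Y711`: the number of the solutions with given `G`, `deg A`, sharp bound.
-/

open Polynomial Classical

namespace Pool.Agent.Y153.SV

open Pool.Agent.Y711 Pool.Agent.W313.Hyp

section

variable {k : Type} [Field k] [Finite k]

/-- the sharp weight -/
noncomputable def wG (m n G : k[X]) : ℝ := wt m G * rphi (mgcd G m) * (rphi n ^ 2 * sg n)

theorem wG_nonneg (m n G : k[X]) : 0 ≤ wG m n G := by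
  unfold wG
  exact mul_nonneg (mul_nonneg (wt_nonneg m G) (rphi_nonneg _))
    (mul_nonneg (pow_nonneg (rphi_nonneg _) _) (sg_nonneg _))

theorem alg_even {q x y z W p1 p2 s : ℝ} {cm a g r G : ℕ} (hq : q ≠ 0)
    (h : cm + 1 + a + (2 * g + 1) + G = a + g + 1 + 3 * r) (hW : W = x * y * (p1 ^ 2 * s))
    (hz : z = q ^ (cm + 1) * (y * (p1 * s))) (hp : p2 = p1) :
    q ^ a * (q ^ (2 * g + 1) / q ^ (3 * r)) * (x * (p2 * z)) = q ^ (a + g + 1) / q ^ G * W := by
  have h1 : q ^ (cm + 1) * q ^ a * q ^ (2 * g + 1) * q ^ G = q ^ (a + g + 1) * q ^ (3 * r) := by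
    rw [← pow_add, ← pow_add, ← pow_add, ← pow_add, h]
  have h3 : q ^ (3 * r) ≠ 0 := pow_ne_zero _ hq
  have h4 : q ^ G ≠ 0 := pow_ne_zero _ hq
  rw [hW, hz, hp]
  have h2 : q ^ (a + g + 1) / q ^ G = q ^ (cm + 1) * q ^ a * q ^ (2 * g + 1) / q ^ (3 * r) := by
    rw [div_eq_div_iff h4 h3]
    exact h1.symm
  rw [h2]
  field_simp

theorem alg_odd {q x y z W p1 p2 s : ℝ} {c a g ρ G : ℕ} (hq : q ≠ 0)
    (h : c + a + ρ + G = a + g + 1 + 2 * c) (hW : W = x * y * (p1 ^ 2 * s))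
    (hz : z = q ^ c * (y * (p1 * s))) (hp : p2 = p1) :
    q ^ a * q ^ ρ / q ^ (2 * c) * (x * (p2 * z)) = q ^ (a + g + 1) / q ^ G * W := by
  have h1 : q ^ c * q ^ a * q ^ ρ * q ^ G = q ^ (a + g + 1) * q ^ (2 * c) := by
    rw [← pow_add, ← pow_add, ← pow_add, ← pow_add, h]
  have h3 : q ^ (2 * c) ≠ 0 := pow_ne_zero _ hq
  have h4 : q ^ G ≠ 0 := pow_ne_zero _ hq
  rw [hW, hz, hp]
  have h2 : q ^ (a + g + 1) / q ^ G = q ^ c * q ^ a * q ^ ρ / q ^ (2 * c) := by
    rw [div_eq_div_iff h4 h3]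
    exact h1.symm
  rw [h2]
  field_simp

theorem GA_sharp (h2 : (2 : k) ≠ 0) {g : ℕ} {m n : k[X]} (hm : m.Monic) (hn : n.Monic)
    (hsq : Squarefree (m * n)) (hg : 4 * (m.natDegree + n.natDegree) ≤ g) (G : k[X])
    (a : ℕ) (hla : 2 * g + 2 + 2 * (m.natDegree + n.natDegree) ≤ 3 * a) :
    (((SFn g m n).filter fun x => x.1 = G ∧ x.2.1.natDegree = a).card : ℝ) ≤
      (Nat.card k : ℝ) ^ (a + g + 1) / (Nat.card k : ℝ) ^ G.natDegree * wG m n G := by
  have hq0 : (0 : ℝ) < Nat.card k := by exact_mod_cast Nat.card_pos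
  have hq : (Nat.card k : ℝ) ≠ 0 := hq0.ne'
  have hw := wG_nonneg m n G
  have hsm : Squarefree m := hsq.squarefree_of_dvd (dvd_mul_right _ _)
  have hsn : Squarefree n := hsq.squarefree_of_dvd (dvd_mul_left _ _)
  have hmnc : IsCoprime m n := by
    refine isCoprime_of_prime_dvd (fun h => hm.ne_zero h.1) fun P hP h1 h2 => ?_
    exact hP.not_isUnit (hsq P (mul_dvd_mul h1 h2))
  have hmg := mgcd_monic (a := G) hm.ne_zero
  have hmgn : IsCoprime (mgcd G m) n := hmnc.of_isCoprime_of_dvd_left (mgcd_dvd_right G m)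
  have hmgd : (mgcd G m).natDegree ≤ m.natDegree :=
    natDegree_le_of_dvd (mgcd_dvd_right G m) hm.ne_zero
  have hrn : 0 ≤ rphi n := rphi_nonneg n
  have hwt := wt_nonneg m G
  have hif : ∀ Q : k[X], 0 ≤ (if IsCoprime Q (mgcd G m) then rphi (mgcd Q n) else 0) := by
    intro Q
    split_ifs
    · exact rphi_nonneg _
    · exact le_rfl
  rcases Finset.eq_empty_or_nonempty ((SFn g m n).filter fun x => x.1 = G ∧ x.2.1.natDegree = a)
    with he | hne
  · rw [he, Finset.card_empty, Nat.cast_zero]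
    exact mul_nonneg (div_nonneg (pow_nonneg hq0.le _) (pow_nonneg hq0.le _)) hw
  obtain ⟨x0, hx0⟩ := hne
  rw [Finset.mem_filter, mem_SFn] at hx0
  obtain ⟨⟨D0, hD0, hs0, _⟩, hG0, hA0⟩ := hx0
  rw [hG0] at hs0
  have hdeg0 := hs0.deg
  rw [hA0] at hdeg0
  rcases Nat.even_or_odd (G.natDegree + a) with hev | hodd
  · -- even case
    obtain ⟨_, e1, e2⟩ := hs0.even_deg hD0 (by rw [hA0]; exact hev)
    rw [hA0] at e1 e2
    obtain ⟨r, hr⟩ := hev
    -- `cm` is the maximal degree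
    obtain ⟨cm, hcm⟩ : ∃ cm, 2 * cm + 2 * g + 2 = 3 * a + G.natDegree :=
      ⟨(3 * a + G.natDegree - 2 * g - 2) / 2, by omega⟩
    rw [Finset.card_eq_sum_card_fiberwise (f := fun x => x.2.2.2) (t := LT k (cm + 1)) (by
      intro x hx
      rw [Finset.mem_coe, Finset.mem_filter, mem_SFn] at hx
      obtain ⟨⟨D, hD, hs, _⟩, h3, h4⟩ := hx
      rw [h3] at hs
      obtain ⟨_, e3, e4⟩ := hs.even_deg hD (by rw [h4]; exact ⟨r, hr⟩)
      rw [h4] at e3 e4
      rw [Finset.mem_coe, mem_LT]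
      show x.2.2.2.degree < _
      exact lt_of_natDegree (by omega))]
    push_cast
    have hterm : ∀ Q ∈ LT k (cm + 1), ((((SFn g m n).filter fun x => x.1 = G ∧
        x.2.1.natDegree = a).filter fun x => x.2.2.2 = Q).card : ℝ) ≤
        (Nat.card k : ℝ) ^ a * ((Nat.card k : ℝ) ^ (2 * g + 1) / (Nat.card k : ℝ) ^ (3 * r)) *
          (wt m G * (rphi n * (if IsCoprime Q (mgcd G m) then rphi (mgcd Q n) else 0))) := by
      intro Q _
      rw [Finset.filter_filter]
      have hcongr : ((SFn g m n).filter fun x => (x.1 = G ∧ x.2.1.natDegree = a) ∧ x.2.2.2 = Q) =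
          ((SFn g m n).filter fun x => x.1 = G ∧ x.2.2.2 = Q ∧ x.2.1.natDegree = a) := by
        refine Finset.filter_congr fun x _ => ?_
        tauto
      rw [hcongr]
      rcases Finset.eq_empty_or_nonempty ((SFn g m n).filter fun x => x.1 = G ∧ x.2.2.2 = Q ∧
        x.2.1.natDegree = a) with he | hne
      · rw [he, Finset.card_empty, Nat.cast_zero]
        exact mul_nonneg (mul_nonneg (pow_nonneg hq0.le _) (div_nonneg (pow_nonneg hq0.le _)
          (pow_nonneg hq0.le _))) (mul_nonneg hwt (mul_nonneg hrn (hif Q)))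
      · have hne' := hne
        obtain ⟨x1, hx1⟩ := hne'
        rw [Finset.mem_filter, mem_SFn] at hx1
        obtain ⟨⟨D1, hD1, hs1, _⟩, hG1, hQ1, hA1⟩ := hx1
        rw [hG1, hQ1] at hs1
        obtain ⟨_, e3, e4⟩ := hs1.even_deg hD1 (by rw [hA1]; exact ⟨r, hr⟩)
        rw [hA1] at e3 e4
        obtain ⟨ρ, hρ⟩ : ∃ ρ, ρ + 3 * r = 2 * g + 1 + 2 * Q.natDegree :=
          ⟨2 * g + 1 + 2 * Q.natDegree - 3 * r, by omega⟩
        have h3 := fib_real' h2 hm hn hsq G Q a ρ (by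
          intro A B B' D D' hA hD hs hD' hs'
          exact IsSol.even_diff h2 hD hs hD' hs' (by rw [hA]; exact ⟨r, hr⟩) (by omega)) hne
          (by omega) (by omega)
        refine h3.trans (le_of_eq ?_)
        have h4 : (Nat.card k : ℝ) ^ ρ * (Nat.card k : ℝ) ^ (3 * r) =
            (Nat.card k : ℝ) ^ (2 * g + 1) * (Nat.card k : ℝ) ^ (2 * Q.natDegree) := by
          rw [← pow_add, ← pow_add, hρ]
        have h5 : (Nat.card k : ℝ) ^ a * (Nat.card k : ℝ) ^ ρ /
            (Nat.card k : ℝ) ^ (2 * Q.natDegree) = (Nat.card k : ℝ) ^ a *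
              ((Nat.card k : ℝ) ^ (2 * g + 1) / (Nat.card k : ℝ) ^ (3 * r)) := by
          rw [mul_div_assoc]
          congr 1
          rw [div_eq_div_iff (pow_ne_zero _ hq) (pow_ne_zero _ hq)]
          exact h4
        rw [h5]
    refine (Finset.sum_le_sum hterm).trans (le_of_eq ?_)
    rw [← Finset.mul_sum, ← Finset.mul_sum, ← Finset.mul_sum]
    have h6 := sum_Q (eqd_LT (k := k) (cm + 1)) hn hsn hmg.ne_zero hmgn (by omega)
    exact alg_even hq (by omega) rfl h6 rfl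
  · -- odd case
    obtain ⟨_, e1, e2⟩ := hs0.odd_deg hD0 (by rw [hA0]; exact hodd)
    rw [hA0] at e1 e2
    obtain ⟨r, hr⟩ := hodd
    obtain ⟨c, hc⟩ : ∃ c, 2 * c + 2 * g + 1 = 3 * a + G.natDegree := ⟨_, e1⟩
    obtain ⟨ρ, hρ⟩ : ∃ ρ, ρ + G.natDegree = c + g + 1 := ⟨c + g + 1 - G.natDegree, by omega⟩
    rw [Finset.card_eq_sum_card_fiberwise (f := fun x => x.2.2.2) (t := MD k c) (by
      intro x hx
      rw [Finset.mem_coe, Finset.mem_filter, mem_SFn] at hx
      obtain ⟨⟨D, hD, hs, _⟩, h3, h4⟩ := hx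
      rw [h3] at hs
      obtain ⟨e5, e3, e4⟩ := hs.odd_deg hD (by rw [h4]; exact ⟨r, hr⟩)
      rw [h4] at e3 e4
      rw [Finset.mem_coe, mem_MD]
      exact ⟨e5, by show x.2.2.2.natDegree = c; omega⟩)]
    push_cast
    have hterm : ∀ Q ∈ MD k c, ((((SFn g m n).filter fun x => x.1 = G ∧
        x.2.1.natDegree = a).filter fun x => x.2.2.2 = Q).card : ℝ) ≤
        (Nat.card k : ℝ) ^ a * (Nat.card k : ℝ) ^ ρ / (Nat.card k : ℝ) ^ (2 * c) *
          (wt m G * (rphi n * (if IsCoprime Q (mgcd G m) then rphi (mgcd Q n) else 0))) := by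
      intro Q hQ
      rw [mem_MD] at hQ
      rw [Finset.filter_filter]
      have hcongr : ((SFn g m n).filter fun x => (x.1 = G ∧ x.2.1.natDegree = a) ∧ x.2.2.2 = Q) =
          ((SFn g m n).filter fun x => x.1 = G ∧ x.2.2.2 = Q ∧ x.2.1.natDegree = a) := by
        refine Finset.filter_congr fun x _ => ?_
        tauto
      rw [hcongr]
      rcases Finset.eq_empty_or_nonempty ((SFn g m n).filter fun x => x.1 = G ∧ x.2.2.2 = Q ∧
        x.2.1.natDegree = a) with he | hne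
      · rw [he, Finset.card_empty, Nat.cast_zero]
        exact mul_nonneg (div_nonneg (mul_nonneg (pow_nonneg hq0.le _) (pow_nonneg hq0.le _))
          (pow_nonneg hq0.le _)) (mul_nonneg hwt (mul_nonneg hrn (hif Q)))
      · have h3 := fib_real' h2 hm hn hsq G Q a ρ (by
          intro A B B' D D' hA hD hs hD' hs'
          obtain ⟨_, _, e6⟩ := hs.odd_deg hD (by rw [hA]; exact ⟨r, hr⟩)
          obtain ⟨_, _, e7⟩ := hs'.odd_deg hD' (by rw [hA]; exact ⟨r, hr⟩)
          rw [hA] at e6 e7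
          refine lt_of_le_of_lt (degree_sub_le _ _) (max_lt ?_ ?_)
          · exact lt_of_natDegree (by omega)
          · exact lt_of_natDegree (by omega)) hne
          (by omega) (by omega)
        rwa [hQ.2] at h3
    refine (Finset.sum_le_sum hterm).trans (le_of_eq ?_)
    rw [← Finset.mul_sum, ← Finset.mul_sum, ← Finset.mul_sum]
    have h6 := sum_Q (eqd_MD (k := k) c) hn hsn hmg.ne_zero hmgn (by omega)
    exact alg_odd hq (by omega) rfl h6 rfl

end

end Pool.Agent.Y153.SV
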