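import Pool.Agent.Y711.SvDef

set_option autoImplicit false
set_option maxHeartbeats 1000000

/-!
Sieve for `Y711`: induction on squarefree monic polynomials, and the products over the prime divisors.
-/

open Polynomial Classical

namespace Pool.Agent.Y153.SV

open Pool.Agent.Y711 Pool.Agent.W313.Hyp

section

variable {k : Type} [Field k]

theorem cop_or_dvd {P : k[X]} (hP : Irreducible P) (a : k[X]) : IsCoprime P a ∨ P ∣ a :=
  (EuclideanDomain.dvd_or_coprime P a hP).symm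

theorem sqf_split {P m : k[X]} (hP : Irreducible P) (h : Squarefree (P * m)) : IsCoprime P m := by
  rcases cop_or_dvd hP m with h1 | h1
  · exact h1
  · exact absurd (h P (mul_dvd_mul_left P h1)) hP.not_isUnit

/-- induction on squarefree monic polynomials -/
theorem sqf_ind (Pr : k[X] → Prop) (h1 : Pr 1)
    (hs : ∀ (P : MI k) (m : k[X]), m.Monic → Squarefree m → Squarefree (P.1 * m) →
      IsCoprime P.1 m → Pr m → Pr (P.1 * m)) :
    ∀ m : k[X], m.Monic → Squarefree m → Pr m := by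
  suffices H : ∀ (n : ℕ) (m : k[X]), m.natDegree = n → m.Monic → Squarefree m → Pr m from
    fun m hm hsq => H m.natDegree m rfl hm hsq
  intro n
  induction n using Nat.strong_induction_on with
  | _ n ih =>
    intro m hn hm hsq
    rcases Nat.eq_zero_or_pos m.natDegree with h0 | h0
    · have : m = 1 := hm.natDegree_eq_zero.1 h0
      rw [this]
      exact h1
    · obtain ⟨P, m', hm'⟩ := exists_MI hm h0
      have hmm : m'.Monic := P.2.1.of_mul_monic_left (hm' ▸ hm)
      have hsq' : Squarefree m' := hsq.squarefree_of_dvd (hm' ▸ dvd_mul_left m' P.1)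
      have hdeg : m.natDegree = P.1.natDegree + m'.natDegree := by
        rw [hm', natDegree_mul P.2.1.ne_zero hmm.ne_zero]
      have hPd := P.deg_pos
      have h2 := ih m'.natDegree (by omega) m' rfl hmm hsq'
      rw [hm'] at hsq ⊢
      exact hs P m' hmm hsq' hsq (sqf_split P.2.2 hsq) h2

end

section

variable {k : Type} [Field k] [Finite k]

theorem mem_pd {M : k[X]} (hM : M ≠ 0) {P : MI k} : P ∈ pd M ↔ P.1 ∣ M := by
  have hf : {P : MI k | P.1 ∣ M}.Finite := by
    refine (finite_deg_le M.natDegree).subset fun P hP => ?_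
    exact natDegree_le_of_dvd hP hM
  unfold pd
  rw [dif_pos hf, Set.Finite.mem_toFinset, Set.mem_ofPred_eq]

theorem pd_one : pd (1 : k[X]) = ∅ := by
  ext P
  rw [mem_pd one_ne_zero]
  simp only [Finset.notMem_empty, iff_false]
  intro h
  exact P.2.2.not_isUnit (isUnit_of_dvd_one h)

theorem pd_mul (P : MI k) {m : k[X]} (hm : m ≠ 0) : pd (P.1 * m) = insert P (pd m) := by
  ext Q
  rw [mem_pd (mul_ne_zero P.2.1.ne_zero hm), Finset.mem_insert, mem_pd hm]
  constructor
  · intro h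
    rcases Q.2.2.prime.dvd_or_dvd h with h1 | h1
    · left
      exact eq_of_dvd_MI h1
    · right
      exact h1
  · rintro (h | h)
    · rw [h]
      exact dvd_mul_right _ _
    · exact h.mul_left _

theorem notMem_pd {P : MI k} {m : k[X]} (hm : m ≠ 0) (h : IsCoprime P.1 m) : P ∉ pd m := by
  rw [mem_pd hm]
  intro h1
  exact P.2.2.not_isUnit (h.isUnit_of_dvd' dvd_rfl h1)

/-- products over the prime divisors -/
theorem prod_pd (F : k[X] → ℝ) (f : MI k → ℝ) (h1 : F 1 = 1)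
    (hs : ∀ (P : MI k) (m : k[X]), m.Monic → Squarefree m → IsCoprime P.1 m →
      F (P.1 * m) = f P * F m) (m : k[X]) (hm : m.Monic) (hsq : Squarefree m) :
    F m = ∏ P ∈ pd m, f P := by
  refine sqf_ind (fun m => F m = ∏ P ∈ pd m, f P) ?_ ?_ m hm hsq
  · rw [pd_one, Finset.prod_empty, h1]
  · intro P m hm hsm _ hc ih
    rw [hs P m hm hsm hc, ih, pd_mul P hm.ne_zero, Finset.prod_insert (notMem_pd hm.ne_zero hc)]

theorem pd_disj {m n : k[X]} (hm : m ≠ 0) (hn : n ≠ 0) (h : IsCoprime m n) :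
    Disjoint (pd m) (pd n) := by
  rw [Finset.disjoint_left]
  intro P h1 h2
  rw [mem_pd hm] at h1
  rw [mem_pd hn] at h2
  exact P.2.2.not_isUnit (h.isUnit_of_dvd' h1 h2)

theorem pd_mul' {m n : k[X]} (hm : m ≠ 0) (hn : n ≠ 0) : pd (m * n) = pd m ∪ pd n := by
  ext P
  rw [Finset.mem_union, mem_pd hm, mem_pd hn, mem_pd (mul_ne_zero hm hn)]
  constructor
  · intro h
    exact P.2.2.prime.dvd_or_dvd h
  · rintro (h | h)
    · exact h.mul_right _
    · exact h.mul_left _

/-! ### the number of units -/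

theorem phi_one : phi (1 : k[X]) = 1 := by
  unfold phi
  rw [natDegree_one, Finset.filter_true_of_mem, card_LT, pow_zero]
  intro r _
  exact isCoprime_one_right

theorem phi_prime (P : MI k) : (phi P.1 : ℝ) = nm P - 1 := by
  have h1 : ((LT k P.1.natDegree).filter fun r => IsCoprime r P.1) =
      (LT k P.1.natDegree).erase 0 := by
    ext r
    rw [Finset.mem_filter, Finset.mem_erase, mem_LT]
    constructor
    · rintro ⟨h1, h2⟩
      refine ⟨?_, h1⟩
      rintro rfl
      exact P.2.2.not_isUnit (isCoprime_zero_left.1 h2)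
    · rintro ⟨h1, h2⟩
      refine ⟨h2, ?_⟩
      rcases cop_or_dvd P.2.2 r with h3 | h3
      · exact h3.symm
      · exfalso
        have h4 := natDegree_le_of_dvd h3 h1
        rw [degree_eq_natDegree h1] at h2
        norm_cast at h2
        omega
  unfold phi nm
  rw [h1, Finset.card_erase_of_mem (zero_mem_LT _), card_LT, Nat.cast_sub (Nat.one_le_pow _ _
    Nat.card_pos)]
  push_cast
  rfl

theorem nm_pos (P : MI k) : 0 < nm P := by
  unfold nm
  have : (0 : ℝ) < Nat.card k := by exact_mod_cast Nat.card_pos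
  positivity

theorem qpos : (0 : ℝ) < Nat.card k := by exact_mod_cast Nat.card_pos

theorem q_one_lt : (1 : ℝ) < Nat.card k := by exact_mod_cast Finite.one_lt_card

/-- `φ(m)/|m|` -/
noncomputable def rphi (m : k[X]) : ℝ := (phi m : ℝ) / (Nat.card k : ℝ) ^ m.natDegree

theorem rphi_nonneg (m : k[X]) : 0 ≤ rphi m := by unfold rphi; positivity

theorem rphi_le_one (m : k[X]) : rphi m ≤ 1 := by
  unfold rphi
  have : (0 : ℝ) < Nat.card k := qpos
  rw [div_le_one (by positivity)]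
  exact_mod_cast phi_le m

theorem rphi_mul {m n : k[X]} (hm : m ≠ 0) (hn : n ≠ 0) (h : IsCoprime m n) :
    rphi (m * n) = rphi m * rphi n := by
  unfold rphi
  rw [phi_mul hm hn h, natDegree_mul hm hn, pow_add]
  push_cast
  rw [mul_div_mul_comm]

theorem rphi_eq (m : k[X]) (hm : m.Monic) (hsq : Squarefree m) :
    rphi m = ∏ P ∈ pd m, (1 - (nm P)⁻¹) := by
  refine prod_pd rphi _ ?_ ?_ m hm hsq
  · unfold rphi
    rw [phi_one]
    simp
  · intro P m hm _ hc
    rw [rphi_mul P.2.1.ne_zero hm.ne_zero hc]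
    congr 1
    unfold rphi
    rw [phi_prime]
    have h := nm_pos P
    have h' : (Nat.card k : ℝ) ^ P.1.natDegree = nm P := rfl
    rw [h']
    field_simp

/-- `|m|` -/
theorem norm_eq (m : k[X]) (hm : m.Monic) (hsq : Squarefree m) :
    ((Nat.card k : ℝ) ^ m.natDegree)⁻¹ = ∏ P ∈ pd m, (nm P)⁻¹ := by
  refine prod_pd (fun m => ((Nat.card k : ℝ) ^ m.natDegree)⁻¹) _ ?_ ?_ m hm hsq
  · simp
  · intro P m hm _ _
    show ((Nat.card k : ℝ) ^ (P.1 * m).natDegree)⁻¹ = _
    rw [natDegree_mul P.2.1.ne_zero hm.ne_zero, pow_add, mul_inv]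
    rfl

/-! ### sum over the divisors -/

/-- `∑_{e ∣ m} 1/|e|` -/
noncomputable def sg (m : k[X]) : ℝ := ∑ e ∈ dv m, ((Nat.card k : ℝ) ^ e.natDegree)⁻¹

theorem sg_nonneg (m : k[X]) : 0 ≤ sg m := by
  unfold sg
  exact Finset.sum_nonneg fun e _ => by positivity

theorem dv_mul (P : MI k) {m : k[X]} (hm : m.Monic) (hc : IsCoprime P.1 m) :
    dv (P.1 * m) = dv m ∪ (dv m).image (fun e => P.1 * e) := by
  have h0 : P.1 * m ≠ 0 := mul_ne_zero P.2.1.ne_zero hm.ne_zero
  ext e
  rw [Finset.mem_union, Finset.mem_image, mem_dv h0, mem_dv hm.ne_zero]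
  constructor
  · rintro ⟨he, hd⟩
    rcases cop_or_dvd P.2.2 e with h1 | h1
    · left
      exact ⟨he, h1.symm.dvd_of_dvd_mul_left hd⟩
    · right
      obtain ⟨e', rfl⟩ := h1
      have he' : e'.Monic := P.2.1.of_mul_monic_left he
      refine ⟨e', ?_, rfl⟩
      rw [mem_dv hm.ne_zero]
      exact ⟨he', (mul_dvd_mul_iff_left P.2.1.ne_zero).1 hd⟩
  · rintro (⟨he, hd⟩ | ⟨e', he', rfl⟩)
    · exact ⟨he, hd.mul_left _⟩
    · rw [mem_dv hm.ne_zero] at he'
      exact ⟨P.2.1.mul he'.1, mul_dvd_mul_left _ he'.2⟩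

theorem dv_disj (P : MI k) {m : k[X]} (hm : m.Monic) (hc : IsCoprime P.1 m) :
    Disjoint (dv m) ((dv m).image (fun e => P.1 * e)) := by
  rw [Finset.disjoint_left]
  intro e h1 h2
  rw [mem_dv hm.ne_zero] at h1
  rw [Finset.mem_image] at h2
  obtain ⟨e', _, rfl⟩ := h2
  have h3 : P.1 ∣ m := (dvd_mul_right _ _).trans h1.2
  exact P.2.2.not_isUnit (hc.isUnit_of_dvd' dvd_rfl h3)

theorem sum_dv_mul (P : MI k) {m : k[X]} (hm : m.Monic) (hc : IsCoprime P.1 m) (F : k[X] → ℝ) :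
    ∑ e ∈ dv (P.1 * m), F e = ∑ e ∈ dv m, F e + ∑ e ∈ dv m, F (P.1 * e) := by
  rw [dv_mul P hm hc, Finset.sum_union (dv_disj P hm hc), Finset.sum_image]
  intro x _ y _ h
  exact mul_left_cancel₀ P.2.1.ne_zero h

theorem dv_one : dv (1 : k[X]) = {1} := by
  ext e
  rw [mem_dv one_ne_zero, Finset.mem_singleton]
  constructor
  · rintro ⟨h1, h2⟩
    exact h1.natDegree_eq_zero.1 (natDegree_eq_zero_of_isUnit (isUnit_of_dvd_one h2))
  · rintro rfl
    exact ⟨monic_one, dvd_rfl⟩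

theorem sg_eq (m : k[X]) (hm : m.Monic) (hsq : Squarefree m) :
    sg m = ∏ P ∈ pd m, (1 + (nm P)⁻¹) := by
  refine prod_pd sg _ ?_ ?_ m hm hsq
  · unfold sg
    rw [dv_one, Finset.sum_singleton, natDegree_one, pow_zero, inv_one]
  · intro P m hm _ hc
    unfold sg
    rw [sum_dv_mul P hm hc, one_add_mul, Finset.mul_sum]
    congr 1
    refine Finset.sum_congr rfl fun e he => ?_
    rw [mem_dv hm.ne_zero] at he
    rw [natDegree_mul P.2.1.ne_zero he.1.ne_zero, pow_add, mul_inv]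
    rfl

/-! ### polynomials prime to `M` -/

/-- the number of the monic polynomials of degree `j` prime to `M` -/
noncomputable def sc (M : k[X]) (j : ℕ) : ℕ := ((MD k j).filter fun G => IsCoprime G M).card

theorem sc_le (M : k[X]) (j : ℕ) : sc M j ≤ Nat.card k ^ j := by
  unfold sc
  exact (Finset.card_filter_le _ _).trans (card_MD j).le

/-- `∑ |G|^{-2}` over the monic polynomials prime to `M` -/
noncomputable def Zs (M : k[X]) : ℝ := ∑' j : ℕ, (sc M j : ℝ) / (Nat.card k : ℝ) ^ (2 * j)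

theorem summ_inv : Summable (fun j : ℕ => ((Nat.card k : ℝ)⁻¹) ^ j) := by
  have h1 : (1 : ℝ) < Nat.card k := q_one_lt
  exact summable_geometric_of_lt_one (by positivity) (inv_lt_one_of_one_lt₀ h1)

theorem sc_term_le (M : k[X]) (j : ℕ) :
    (sc M j : ℝ) / (Nat.card k : ℝ) ^ (2 * j) ≤ ((Nat.card k : ℝ)⁻¹) ^ j := by
  have hq : (0 : ℝ) < Nat.card k := qpos
  have h1 : (sc M j : ℝ) ≤ (Nat.card k : ℝ) ^ j := by exact_mod_cast sc_le M j
  rw [div_le_iff₀ (by positivity), two_mul, pow_add, inv_pow, ← mul_assoc,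
    inv_mul_cancel₀ (by positivity), one_mul]
  exact h1

theorem sc_summable (M : k[X]) :
    Summable (fun j : ℕ => (sc M j : ℝ) / (Nat.card k : ℝ) ^ (2 * j)) :=
  Summable.of_nonneg_of_le (fun j => by positivity) (sc_term_le M) summ_inv

theorem Zs_one : Zs (1 : k[X]) = (Nat.card k : ℝ) / (Nat.card k - 1) := by
  have h1 : (1 : ℝ) < Nat.card k := q_one_lt
  have hq : (0 : ℝ) < Nat.card k := qpos
  have h2 : (0 : ℝ) < (Nat.card k : ℝ) - 1 := by linarith
  unfold Zs
  have h3 : ∀ j : ℕ, (sc (1 : k[X]) j : ℝ) / (Nat.card k : ℝ) ^ (2 * j) =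
      ((Nat.card k : ℝ)⁻¹) ^ j := by
    intro j
    have h4 : sc (1 : k[X]) j = Nat.card k ^ j := by
      unfold sc
      rw [Finset.filter_true_of_mem (fun G _ => isCoprime_one_right), card_MD]
    rw [h4, two_mul, pow_add, inv_pow]
    push_cast
    field_simp
  simp_rw [h3]
  rw [tsum_geometric_of_lt_one (by positivity) (inv_lt_one_of_one_lt₀ h1)]
  field_simp

theorem sc_mul (P : MI k) {M : k[X]} (hc : IsCoprime P.1 M) (j : ℕ) :
    sc M j = sc (P.1 * M) j + if P.1.natDegree ≤ j then sc M (j - P.1.natDegree) else 0 := by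
  have h0 : ((MD k j).filter fun G => IsCoprime G M) =
      ((MD k j).filter fun G => IsCoprime G (P.1 * M)) ∪
        ((MD k j).filter fun G => IsCoprime G M ∧ P.1 ∣ G) := by
    ext G
    rw [Finset.mem_union, Finset.mem_filter, Finset.mem_filter, Finset.mem_filter,
      IsCoprime.mul_right_iff]
    constructor
    · rintro ⟨h1, h2⟩
      rcases cop_or_dvd P.2.2 G with h3 | h3
      · left
        exact ⟨h1, h3.symm, h2⟩
      · right
        exact ⟨h1, h2, h3⟩
    · rintro (⟨h1, _, h2⟩ | ⟨h1, h2, _⟩)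
      · exact ⟨h1, h2⟩
      · exact ⟨h1, h2⟩
  have hdisj : Disjoint ((MD k j).filter fun G => IsCoprime G (P.1 * M))
      ((MD k j).filter fun G => IsCoprime G M ∧ P.1 ∣ G) := by
    rw [Finset.disjoint_left]
    intro G h1 h2
    rw [Finset.mem_filter, IsCoprime.mul_right_iff] at h1
    rw [Finset.mem_filter] at h2
    exact P.2.2.not_isUnit (h1.2.1.isUnit_of_dvd' h2.2.2 dvd_rfl)
  have h1 : ((MD k j).filter fun G => IsCoprime G M ∧ P.1 ∣ G).card =
      if P.1.natDegree ≤ j then sc M (j - P.1.natDegree) else 0 := by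
    split_ifs with hj
    · unfold sc
      symm
      refine Finset.card_bij (fun G _ => P.1 * G) ?_ ?_ ?_
      · intro G hG
        rw [Finset.mem_filter, mem_MD] at hG
        rw [Finset.mem_filter, mem_MD]
        refine ⟨⟨P.2.1.mul hG.1.1, ?_⟩, hc.mul_left hG.2, dvd_mul_right _ _⟩
        rw [natDegree_mul P.2.1.ne_zero hG.1.1.ne_zero, hG.1.2]
        omega
      · intro G _ G' _ h
        exact mul_left_cancel₀ P.2.1.ne_zero h
      · intro G hG
        rw [Finset.mem_filter, mem_MD] at hG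
        obtain ⟨⟨h2, h3⟩, h4, G', rfl⟩ := hG
        have h5 : G'.Monic := P.2.1.of_mul_monic_left h2
        refine ⟨G', ?_, rfl⟩
        rw [Finset.mem_filter, mem_MD]
        rw [natDegree_mul P.2.1.ne_zero h5.ne_zero] at h3
        exact ⟨⟨h5, by omega⟩, h4.of_mul_left_right⟩
    · rw [Finset.card_eq_zero, Finset.filter_eq_empty_iff]
      rintro G hG ⟨_, h3⟩
      rw [mem_MD] at hG
      have := natDegree_le_of_dvd h3 hG.1.ne_zero
      omega
  rw [← h1]
  unfold sc
  rw [h0, Finset.card_union_of_disjoint hdisj]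

theorem Zs_mul (P : MI k) {M : k[X]} (hc : IsCoprime P.1 M) :
    Zs (P.1 * M) = (1 - ((nm P)⁻¹) ^ 2) * Zs M := by
  have hq : (0 : ℝ) < Nat.card k := qpos
  set d := P.1.natDegree with hd
  -- the shifted series
  have h1 : HasSum (fun j : ℕ => if d ≤ j then (sc M (j - d) : ℝ) / (Nat.card k : ℝ) ^ (2 * j)
      else 0) (((nm P)⁻¹) ^ 2 * Zs M) := by
    have h2 : HasSum (fun j : ℕ => ((nm P)⁻¹) ^ 2 * ((sc M j : ℝ) / (Nat.card k : ℝ) ^ (2 * j)))
        (((nm P)⁻¹) ^ 2 * Zs M) := (sc_summable M).hasSum.mul_left _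
    have hinj : Function.Injective (fun j : ℕ => j + d) := add_left_injective d
    rw [← hinj.hasSum_iff]
    · refine h2.congr_fun fun j => ?_
      simp only [Function.comp_apply]
      rw [if_pos (by omega), Nat.add_sub_cancel]
      unfold nm
      rw [← hd, mul_add, pow_add, mul_comm 2 d, pow_mul, inv_pow]
      field_simp
      ring
    · intro j hj
      rw [if_neg]
      intro h
      exact hj ⟨j - d, by simp only; omega⟩
  have h3 : HasSum (fun j : ℕ => (sc (P.1 * M) j : ℝ) / (Nat.card k : ℝ) ^ (2 * j))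
      (Zs M - ((nm P)⁻¹) ^ 2 * Zs M) := by
    refine ((sc_summable M).hasSum.sub h1).congr_fun fun j => ?_
    have h4 := sc_mul P hc j
    have h5 : (sc M j : ℝ) = sc (P.1 * M) j + if d ≤ j then (sc M (j - d) : ℝ) else 0 := by
      rw [h4]
      push_cast
      rfl
    rw [h5]
    split_ifs
    · ring
    · ring
  unfold Zs at h3 ⊢
  rw [h3.tsum_eq]
  ring

theorem Zs_eq (M : k[X]) (hM : M.Monic) (hsq : Squarefree M) :
    Zs M = (Nat.card k : ℝ) / (Nat.card k - 1) * ∏ P ∈ pd M, (1 - ((nm P)⁻¹) ^ 2) := by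
  refine sqf_ind (fun M => Zs M = (Nat.card k : ℝ) / (Nat.card k - 1) *
    ∏ P ∈ pd M, (1 - ((nm P)⁻¹) ^ 2)) ?_ ?_ M hM hsq
  · rw [pd_one, Finset.prod_empty, mul_one, Zs_one]
  · intro P m hm _ _ hc ih
    rw [Zs_mul P hc, ih, pd_mul P hm.ne_zero, Finset.prod_insert (notMem_pd hm.ne_zero hc)]
    ring

theorem sum_sc_le (M : k[X]) (L : ℕ) :
    ∑ j ∈ Finset.range L, (sc M j : ℝ) / (Nat.card k : ℝ) ^ (2 * j) ≤ Zs M :=
  (sc_summable M).sum_le_tsum _ fun j _ => by positivity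

/-- the product formula for the main term -/
theorem wmn_eq {m n : k[X]} (hm : m.Monic) (hn : n.Monic) (hsq : Squarefree (m * n)) :
    (Nat.card k : ℝ) / (Nat.card k - 1) * wmn m n =
      (rphi m ^ 2 * ((Nat.card k : ℝ) ^ m.natDegree)⁻¹ * sg m) * (rphi n ^ 2 * sg n) *
        Zs (m * n) := by
  have hsm : Squarefree m := hsq.squarefree_of_dvd (dvd_mul_right _ _)
  have hsn : Squarefree n := hsq.squarefree_of_dvd (dvd_mul_left _ _)
  have hc : IsCoprime m n := by
    refine isCoprime_of_prime_dvd (fun h => hm.ne_zero h.1) fun P hP h1 h2 => ?_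
    exact hP.not_unit (hsq P (mul_dvd_mul h1 h2))
  rw [Zs_eq _ (hm.mul hn) hsq, pd_mul' hm.ne_zero hn.ne_zero,
    Finset.prod_union (pd_disj hm.ne_zero hn.ne_zero hc), rphi_eq m hm hsm, rphi_eq n hn hsn,
    norm_eq m hm hsm, sg_eq m hm hsm, sg_eq n hn hsn]
  unfold wmn
  have e1 : ∏ P ∈ pd m, (nm P)⁻¹ * (1 - (nm P)⁻¹) * (1 - ((nm P)⁻¹) ^ 2) ^ 2 =
      (∏ P ∈ pd m, (1 - (nm P)⁻¹)) ^ 2 * (∏ P ∈ pd m, (nm P)⁻¹) *
        (∏ P ∈ pd m, (1 + (nm P)⁻¹)) * ∏ P ∈ pd m, (1 - ((nm P)⁻¹) ^ 2) := by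
    rw [← Finset.prod_pow, ← Finset.prod_mul_distrib, ← Finset.prod_mul_distrib,
      ← Finset.prod_mul_distrib]
    exact Finset.prod_congr rfl fun P _ => by ring
  have e2 : ∏ P ∈ pd n, (1 - (nm P)⁻¹) * (1 - ((nm P)⁻¹) ^ 2) ^ 2 =
      (∏ P ∈ pd n, (1 - (nm P)⁻¹)) ^ 2 *
        (∏ P ∈ pd n, (1 + (nm P)⁻¹)) * ∏ P ∈ pd n, (1 - ((nm P)⁻¹) ^ 2) := by
    rw [← Finset.prod_pow, ← Finset.prod_mul_distrib, ← Finset.prod_mul_distrib]
    exact Finset.prod_congr rfl fun P _ => by ring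
  rw [e1, e2]
  ring

end

end Pool.Agent.Y153.SV
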