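import Pool.Agent.Y153.SV.Ind

set_option autoImplicit false
set_option maxHeartbeats 1000000

/-!
Sieve for `Y711`: local counts.
-/

open Polynomial Classical

namespace Pool.Agent.Y153.SV

open Pool.Agent.Y711 Pool.Agent.W313.Hyp

section

variable {k : Type} [Field k]

theorem cop_congr {N a b : k[X]} (h : N ∣ a - b) : IsCoprime a N ↔ IsCoprime b N := by
  obtain ⟨c, hc⟩ := h
  have h1 : a = b + N * c := by linear_combination hc
  rw [h1]
  constructor
  · intro h
    exact IsCoprime.of_add_mul_left_left h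
  · intro h
    exact h.add_mul_left_left _

theorem cop_cube {N G r r' A A' : k[X]} (κ : k) (hr : N ∣ r - r') (hA : N ∣ A - A') :
    IsCoprime (G * r ^ 2 - C κ * A ^ 3) N ↔ IsCoprime (G * r' ^ 2 - C κ * A' ^ 3) N := by
  apply cop_congr
  obtain ⟨c, hc⟩ := hr
  obtain ⟨d, hd⟩ := hA
  exact ⟨G * c * (r + r') - C κ * d * (A ^ 2 + A * A' + A' ^ 2), by
    linear_combination G * (r + r') * hc - C κ * (A ^ 2 + A * A' + A' ^ 2) * hd⟩

theorem mgcd_cop {m : k[X]} (hm : m ≠ 0) {e a : k[X]} (he : e.Monic) (h1 : e ∣ a) (h2 : e ∣ m)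
    (h3 : ∀ d, d ∣ a → d ∣ m → d ∣ e) : mgcd a m = e :=
  eq_of_monic_of_associated (mgcd_monic hm) he
    (associated_of_dvd_dvd (h3 _ (mgcd_dvd_left a m) (mgcd_dvd_right a m)) (dvd_mgcd h1 h2))

end

section

variable {k : Type} [Field k] [Finite k]

theorem mgcd_mod (r : k[X]) {n N : k[X]} (hn : n ≠ 0) (h : n ∣ N) : mgcd (r % N) n = mgcd r n := by
  refine mgcd_cop hn (mgcd_monic hn) ?_ (mgcd_dvd_right r n) ?_
  · obtain ⟨c, hc⟩ := h
    have h1 := EuclideanDomain.mod_add_div r N
    have h2 : r % N = r - n * (c * (r / N)) := by rw [hc] at h1 ⊢; linear_combination h1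
    rw [h2]
    exact dvd_sub (mgcd_dvd_left r n) ((mgcd_dvd_right r n).mul_right _)
  · intro d h1 h2
    refine dvd_mgcd ?_ h2
    exact (dvd_mod_iff (M := d) (h2.trans h)).1 h1

theorem card_fib {m : k[X]} (hm : m.Monic) {e : k[X]} (he : e ∈ dv m) :
    ((LT k m.natDegree).filter fun r => mgcd r m = e).card = phi (m / e) := by
  rw [mem_dv hm.ne_zero] at he
  obtain ⟨hem, m', rfl⟩ := he
  have hm' : m'.Monic := hem.of_mul_monic_left hm
  rw [mul_div_cancel_left₀ _ hem.ne_zero]
  unfold phi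
  symm
  refine Finset.card_bij (fun w _ => e * w) ?_ ?_ ?_
  · intro w hw
    rw [Finset.mem_filter, mem_LT] at hw
    rw [Finset.mem_filter, mem_LT]
    refine ⟨?_, ?_⟩
    · rw [natDegree_mul hem.ne_zero hm'.ne_zero]
      exact degree_mul_lt' le_rfl hw.1
    · obtain ⟨a, b, hab⟩ := hw.2
      have h1 : mgcd (e * w) (e * m') ∣ e := by
        have h2 := dvd_add ((mgcd_dvd_left (e * w) (e * m')).mul_left a)
          ((mgcd_dvd_right (e * w) (e * m')).mul_left b)
        have h3 : a * (e * w) + b * (e * m') = e := by linear_combination e * hab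
        rwa [h3] at h2
      have h4 : e ∣ mgcd (e * w) (e * m') := dvd_mgcd (dvd_mul_right _ _) (dvd_mul_right _ _)
      exact eq_of_monic_of_associated (mgcd_monic hm.ne_zero) hem (associated_of_dvd_dvd h1 h4)
  · intro w _ w' _ h
    exact mul_left_cancel₀ hem.ne_zero h
  · intro r hr
    rw [Finset.mem_filter, mem_LT] at hr
    obtain ⟨hr1, hr2⟩ := hr
    have h1 : e ∣ r := by
      rw [← hr2]
      exact mgcd_dvd_left _ _
    obtain ⟨w, rfl⟩ := h1
    refine ⟨w, ?_, rfl⟩
    rw [Finset.mem_filter, mem_LT]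
    constructor
    · by_cases hw : w = 0
      · rw [hw, degree_zero]
        exact WithBot.bot_lt_coe _
      · rw [degree_eq_natDegree (mul_ne_zero hem.ne_zero hw), natDegree_mul hem.ne_zero hw,
          natDegree_mul hem.ne_zero hm'.ne_zero] at hr1
        rw [degree_eq_natDegree hw]
        norm_cast at hr1 ⊢
        omega
    · obtain ⟨x, y, hxy⟩ := mgcd_bezout (e * w) (e * m')
      rw [hr2] at hxy
      refine ⟨x, y, ?_⟩
      apply mul_left_cancel₀ hem.ne_zero
      linear_combination -hxy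

/-- `φ((r, n)) |n| / |(r, n)|` -/
noncomputable def fq (n r : k[X]) : ℕ :=
  phi (mgcd r n) * Nat.card k ^ (n.natDegree - (mgcd r n).natDegree)

theorem div_facts {n e : k[X]} (hn : n.Monic) (hsq : Squarefree n) (he : e ∈ dv n) :
    e.Monic ∧ (n / e).Monic ∧ n = e * (n / e) ∧ IsCoprime e (n / e) ∧
      n.natDegree = e.natDegree + (n / e).natDegree := by
  rw [mem_dv hn.ne_zero] at he
  obtain ⟨hem, m', hm'⟩ := he
  have h1 : n / e = m' := by rw [hm', mul_div_cancel_left₀ _ hem.ne_zero]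
  have h2 : m'.Monic := hem.of_mul_monic_left (hm' ▸ hn)
  rw [h1]
  refine ⟨hem, h2, hm', ?_, ?_⟩
  · refine isCoprime_of_prime_dvd (fun h => hem.ne_zero h.1) fun P hP h3 h4 => ?_
    exact hP.not_unit (hsq P (hm' ▸ mul_dvd_mul h3 h4))
  · rw [hm', natDegree_mul hem.ne_zero h2.ne_zero]

theorem sum_fq {n : k[X]} (hn : n.Monic) (hsq : Squarefree n) :
    ∑ r ∈ LT k n.natDegree, fq n r =
      phi n * ∑ e ∈ dv n, Nat.card k ^ (n.natDegree - e.natDegree) := by
  rw [← Finset.sum_fiberwise_of_maps_to (s := LT k n.natDegree) (t := dv n)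
    (g := fun r => mgcd r n) (by
      intro r _
      exact (mem_dv hn.ne_zero).2 ⟨mgcd_monic hn.ne_zero, mgcd_dvd_right r n⟩), Finset.mul_sum]
  refine Finset.sum_congr rfl fun e he => ?_
  obtain ⟨h1, h2, h3, h4, h5⟩ := div_facts hn hsq he
  have h6 : ∀ r ∈ (LT k n.natDegree).filter (fun r => mgcd r n = e),
      fq n r = phi e * Nat.card k ^ (n.natDegree - e.natDegree) := by
    intro r hr
    rw [Finset.mem_filter] at hr
    unfold fq
    rw [hr.2]
  rw [Finset.sum_congr rfl h6, Finset.sum_const, card_fib hn he, smul_eq_mul]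
  have h7 : phi n = phi e * phi (n / e) := by
    conv_lhs => rw [h3]
    exact phi_mul h1.ne_zero h2.ne_zero h4
  rw [h7]
  ring

theorem sum_sg {n : k[X]} (hn : n.Monic) :
    ((∑ e ∈ dv n, Nat.card k ^ (n.natDegree - e.natDegree) : ℕ) : ℝ) =
      (Nat.card k : ℝ) ^ n.natDegree * sg n := by
  have hq : (0 : ℝ) < Nat.card k := qpos
  unfold sg
  rw [Finset.mul_sum]
  push_cast
  refine Finset.sum_congr rfl fun e he => ?_
  rw [mem_dv hn.ne_zero] at he
  have h1 := natDegree_le_of_dvd he.2 hn.ne_zero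
  rw [pow_sub₀ _ hq.ne' h1]

/-- equidistributed sets -/
def Eqd (S : Finset k[X]) (c : ℕ) : Prop :=
  ∀ N : k[X], N ≠ 0 → N.natDegree ≤ c → ∀ F : k[X] → ℕ,
    ∑ Q ∈ S, F (Q % N) = Nat.card k ^ (c - N.natDegree) * ∑ r ∈ LT k N.natDegree, F r

theorem eqd_MD (c : ℕ) : Eqd (MD k c) c := fun N hN hc F => sum_monic N hN hc F

theorem eqd_LT (c : ℕ) : Eqd (LT k c) c := by
  intro N hN hc F
  have := sum_interval N hN hc 0 F
  simp only [zero_add] at this
  exact this

/-- the sum over `Q` -/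
theorem sum_Q {S : Finset k[X]} {c : ℕ} (hS : Eqd S c) {n mG : k[X]} (hn : n.Monic)
    (hsq : Squarefree n) (hmG : mG ≠ 0) (hc : IsCoprime mG n)
    (hdeg : mG.natDegree + n.natDegree ≤ c) :
    ∑ Q ∈ S, (if IsCoprime Q mG then rphi (mgcd Q n) else 0) =
      (Nat.card k : ℝ) ^ c * (rphi mG * (rphi n * sg n)) := by
  have hq : (0 : ℝ) < Nat.card k := qpos
  have hN0 : mG * n ≠ 0 := mul_ne_zero hmG hn.ne_zero
  have hdN : (mG * n).natDegree = mG.natDegree + n.natDegree := natDegree_mul hmG hn.ne_zero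
  have h1 := hS (mG * n) hN0 (by rw [hdN]; exact hdeg)
    (fun r => (if IsCoprime r mG then 1 else 0) * fq n r)
  have h2 := sum_crt hmG hn.ne_zero hc (fun r => if IsCoprime r mG then 1 else 0) (fun r => fq n r)
  have h3 : ∀ r : k[X], (if IsCoprime (r % mG) mG then 1 else 0) * fq n (r % n) =
      (if IsCoprime r mG then 1 else 0) * fq n r := by
    intro r
    rw [coprime_mod']
    unfold fq
    rw [mgcd_mod r hn.ne_zero dvd_rfl]
  have h4 : ∑ r ∈ LT k mG.natDegree, (if IsCoprime r mG then 1 else 0) = phi mG := by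
    unfold phi
    rw [Finset.card_filter]
  have h2' : ∑ r ∈ LT k (mG * n).natDegree, (if IsCoprime r mG then 1 else 0) * fq n r =
      phi mG * (phi n * ∑ e ∈ dv n, Nat.card k ^ (n.natDegree - e.natDegree)) := by
    rw [← sum_fq hn hsq, ← h4, ← h2]
    exact Finset.sum_congr rfl fun r _ => (h3 r).symm
  rw [h2'] at h1
  have h5 : ∀ Q : k[X], (if IsCoprime (Q % (mG * n)) mG then 1 else 0) * fq n (Q % (mG * n)) =
      (if IsCoprime Q mG then 1 else 0) * fq n Q := by
    intro Q
    rw [coprime_mod (dvd_mul_right _ _)]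
    unfold fq
    rw [mgcd_mod Q hn.ne_zero (dvd_mul_left _ _)]
  simp only [h5] at h1
  have h6 : ∀ Q : k[X], (if IsCoprime Q mG then rphi (mgcd Q n) else 0) =
      (((if IsCoprime Q mG then 1 else 0) * fq n Q : ℕ) : ℝ) / (Nat.card k : ℝ) ^ n.natDegree := by
    intro Q
    split_ifs
    · unfold rphi fq
      have h7 : (mgcd Q n).natDegree ≤ n.natDegree :=
        natDegree_le_of_dvd (mgcd_dvd_right Q n) hn.ne_zero
      rw [one_mul]
      push_cast
      rw [pow_sub₀ _ hq.ne' h7]
      field_simp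
    · simp
  have h1' : (∑ Q ∈ S, (((if IsCoprime Q mG then 1 else 0) * fq n Q : ℕ) : ℝ)) =
      (Nat.card k : ℝ) ^ (c - (mG * n).natDegree) * (phi mG * (phi n *
        ((∑ e ∈ dv n, Nat.card k ^ (n.natDegree - e.natDegree) : ℕ) : ℝ))) := by
    rw [← Nat.cast_sum, h1]
    push_cast
    rfl
  rw [Finset.sum_congr rfl fun Q _ => h6 Q, ← Finset.sum_div, h1', sum_sg hn,
    pow_sub₀ _ hq.ne' (by rw [hdN]; exact hdeg), hdN, pow_add]
  unfold rphi
  field_simp

/-! ### pairs with `G r ^ 2 - κ A ^ 3` prime to `n` -/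

/-- the number of `r` with `G r ^ 2 - κ A ^ 3` prime to `n` -/
noncomputable def hc (n G : k[X]) (κ : k) (A : k[X]) : ℕ :=
  ((LT k n.natDegree).filter fun r => IsCoprime (G * r ^ 2 - C κ * A ^ 3) n).card

theorem hc_mod {n G M : k[X]} {κ : k} {A : k[X]} (h : n ∣ M) : hc n G κ (A % M) = hc n G κ A := by
  unfold hc
  refine congrArg Finset.card (Finset.filter_congr fun r _ => ?_)
  exact cop_cube κ (by rw [sub_self]; exact dvd_zero _) (h.trans (dvd_mod_sub A M))

theorem hc_mul {m n G : k[X]} (κ : k) (A : k[X]) (hm : m ≠ 0) (hn : n ≠ 0) (h : IsCoprime m n) :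
    hc (m * n) G κ A = hc m G κ A * hc n G κ A := by
  unfold hc
  rw [Finset.card_filter, Finset.card_filter, Finset.card_filter,
    ← sum_crt hm hn h (fun r => if IsCoprime (G * r ^ 2 - C κ * A ^ 3) m then 1 else 0)
      (fun r => if IsCoprime (G * r ^ 2 - C κ * A ^ 3) n then 1 else 0)]
  apply Finset.sum_congr rfl
  intro r _
  have h1 := cop_cube (G := G) (A := A) (A' := A) κ (dvd_mod_sub r m)
    (by rw [sub_self]; exact dvd_zero _)
  have h2 := cop_cube (G := G) (A := A) (A' := A) κ (dvd_mod_sub r n)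
    (by rw [sub_self]; exact dvd_zero _)
  rw [IsCoprime.mul_right_iff]
  simp only [h1, h2]
  by_cases h3 : IsCoprime (G * r ^ 2 - C κ * A ^ 3) m <;>
    by_cases h4 : IsCoprime (G * r ^ 2 - C κ * A ^ 3) n <;> simp [h3, h4]

theorem hc_prime (P : MI k) {G : k[X]} (hG : IsCoprime G P.1) {κ : k} (hκ : κ ≠ 0) :
    ∑ A ∈ LT k P.1.natDegree, hc P.1 G κ A = Nat.card k ^ P.1.natDegree * phi P.1 := by
  have hP0 : P.1 ≠ 0 := P.2.1.ne_zero
  have h1 : ∀ A : k[X], hc P.1 G κ A + cc P.1 G κ A = Nat.card k ^ P.1.natDegree := by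
    intro A
    unfold hc cc
    rw [← card_LT, ← Finset.card_filter_add_card_filter_not (s := LT k P.1.natDegree)
      (fun r => IsCoprime (G * r ^ 2 - C κ * A ^ 3) P.1)]
    congr 1
    refine congrArg Finset.card (Finset.filter_congr fun r _ => ?_)
    constructor
    · intro h h'
      exact P.2.2.not_isUnit (h'.isUnit_of_dvd' h dvd_rfl)
    · intro h
      rcases cop_or_dvd P.2.2 (G * r ^ 2 - C κ * A ^ 3) with h3 | h3
      · exact absurd h3.symm h
      · exact h3
  have h2 : ∑ A ∈ LT k P.1.natDegree, cc P.1 G κ A = Nat.card k ^ P.1.natDegree := by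
    have h3 := unit_sum hP0 hG hκ
    have h4 : ∑ A ∈ LT k P.1.natDegree, cc P.1 G κ A =
        ∑ A ∈ LT k P.1.natDegree, (if IsCoprime A P.1 then cc P.1 G κ A else 0) +
          ∑ A ∈ LT k P.1.natDegree, (if A = 0 then cc P.1 G κ A else 0) := by
      rw [← Finset.sum_add_distrib]
      refine Finset.sum_congr rfl fun A hA => ?_
      rw [mem_LT] at hA
      by_cases h5 : A = 0
      · have h6 : ¬ IsCoprime A P.1 := by
          rw [h5]
          intro h
          exact P.2.2.not_isUnit (isCoprime_zero_left.1 h)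
        rw [if_neg h6, if_pos h5, zero_add]
      · have h6 : IsCoprime A P.1 := by
          rcases cop_or_dvd P.2.2 A with h7 | h7
          · exact h7.symm
          · exfalso
            have h8 := natDegree_le_of_dvd h7 h5
            rw [degree_eq_natDegree h5] at hA
            norm_cast at hA
            omega
        rw [if_pos h6, if_neg h5, add_zero]
    have h5 : ∑ A ∈ LT k P.1.natDegree, (if IsCoprime A P.1 then cc P.1 G κ A else 0) =
        phi P.1 := h3
    rw [h4, h5, Finset.sum_ite_eq' (LT k P.1.natDegree) 0, if_pos (zero_mem_LT _)]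
    have h6 : cc P.1 G κ 0 = 1 := by
      unfold cc
      rw [Finset.card_eq_one]
      refine ⟨0, ?_⟩
      ext r
      rw [Finset.mem_filter, Finset.mem_singleton, mem_LT]
      constructor
      · rintro ⟨h7, h8⟩
        have h9 : P.1 ∣ G * r ^ 2 := by
          have : G * r ^ 2 - C κ * 0 ^ 3 = G * r ^ 2 := by ring
          rwa [this] at h8
        have h10 : P.1 ∣ r ^ 2 := hG.symm.dvd_of_dvd_mul_left h9
        have h11 : P.1 ∣ r := P.2.2.prime.dvd_of_dvd_pow h10
        by_contra h12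
        have h13 := natDegree_le_of_dvd h11 h12
        rw [degree_eq_natDegree h12] at h7
        norm_cast at h7
        omega
      · rintro rfl
        refine ⟨mem_LT.1 (zero_mem_LT _), ?_⟩
        have : G * (0 : k[X]) ^ 2 - C κ * 0 ^ 3 = 0 := by ring
        rw [this]
        exact dvd_zero _
    rw [h6]
    have h7 := phi_prime P
    unfold nm at h7
    have h8 : ((phi P.1 + 1 : ℕ) : ℝ) = ((Nat.card k ^ P.1.natDegree : ℕ) : ℝ) := by
      push_cast
      linarith
    exact_mod_cast h8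
  have h3 : ∑ A ∈ LT k P.1.natDegree, hc P.1 G κ A + Nat.card k ^ P.1.natDegree =
      Nat.card k ^ P.1.natDegree * Nat.card k ^ P.1.natDegree := by
    conv_lhs => rw [← h2]
    rw [← Finset.sum_add_distrib, Finset.sum_congr rfl fun A _ => h1 A, Finset.sum_const, card_LT,
      smul_eq_mul]
  have h7 := phi_prime P
  unfold nm at h7
  have h8 : ((∑ A ∈ LT k P.1.natDegree, hc P.1 G κ A : ℕ) : ℝ) =
      ((Nat.card k ^ P.1.natDegree * phi P.1 : ℕ) : ℝ) := by
    have h9 : ((∑ A ∈ LT k P.1.natDegree, hc P.1 G κ A : ℕ) : ℝ) +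
        (Nat.card k : ℝ) ^ P.1.natDegree =
        (Nat.card k : ℝ) ^ P.1.natDegree * (Nat.card k : ℝ) ^ P.1.natDegree := by
      exact_mod_cast h3
    rw [Nat.cast_mul, h7]
    push_cast at h9 ⊢
    linarith
  exact_mod_cast h8

theorem hc_sum (G : k[X]) {κ : k} (hκ : κ ≠ 0) (n : k[X]) (hn : n.Monic) (hsq : Squarefree n) :
    IsCoprime G n → ∑ A ∈ LT k n.natDegree, hc n G κ A = Nat.card k ^ n.natDegree * phi n := by
  refine sqf_ind (fun n => IsCoprime G n →
    ∑ A ∈ LT k n.natDegree, hc n G κ A = Nat.card k ^ n.natDegree * phi n) ?_ ?_ n hn hsq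
  · intro _
    rw [natDegree_one, pow_zero, one_mul]
    have h1 : LT k 0 = {0} := by
      ext r
      rw [mem_LT, Finset.mem_singleton]
      constructor
      · intro h
        rw [← degree_eq_bot]
        by_contra hne
        have h2 : r ≠ 0 := fun h0 => hne (by rw [h0, degree_zero])
        rw [degree_eq_natDegree h2] at h
        norm_cast at h
      · rintro rfl
        exact mem_LT.1 (zero_mem_LT _)
    rw [h1, Finset.sum_singleton]
    unfold hc phi
    rw [natDegree_one]
    refine congrArg Finset.card (Finset.filter_congr fun r _ => ?_)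
    exact ⟨fun _ => isCoprime_one_right, fun _ => isCoprime_one_right⟩
  · intro P m hm _ _ hc' ih hG
    rw [IsCoprime.mul_right_iff] at hG
    have hP0 : P.1 ≠ 0 := P.2.1.ne_zero
    have h1 := sum_crt hP0 hm.ne_zero hc' (fun A => hc P.1 G κ A) (fun A => hc m G κ A)
    have h2 : ∑ A ∈ LT k (P.1 * m).natDegree, hc (P.1 * m) G κ A =
        ∑ r ∈ LT k (P.1 * m).natDegree, hc P.1 G κ (r % P.1) * hc m G κ (r % m) := by
      refine Finset.sum_congr rfl fun A _ => ?_
      rw [hc_mul κ A hP0 hm.ne_zero hc', hc_mod dvd_rfl, hc_mod dvd_rfl]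
    rw [h2, h1, hc_prime P hG.1 hκ, ih hG.2, phi_mul hP0 hm.ne_zero hc',
      natDegree_mul hP0 hm.ne_zero, pow_add]
    ring

end

end Pool.Agent.Y153.SV
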