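import Pool.Agent.Y153.SV.Loc

set_option autoImplicit false
set_option maxHeartbeats 1000000

/-!
Sieve for `Y711`: pairs, with conditions at the primes of `n`.
-/

open Polynomial Classical

namespace Pool.Agent.Y153.SV

open Pool.Agent.Y711 Pool.Agent.W313.Hyp

section

variable {k : Type} [Field k] [Finite k]

omit [Finite k] in
theorem per_gen {G N e u : k[X]} (hN0 : N ≠ 0) {B B' : k[X]} (hB : N * e ∣ B' - B)
    (h : N ∣ G * B ^ 2 - u ∧ IsCoprime ((G * B ^ 2 - u) / N) e) :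
    N ∣ G * B' ^ 2 - u ∧ IsCoprime ((G * B' ^ 2 - u) / N) e := by
  obtain ⟨z, hz⟩ := hB
  have h1 : B' = B + N * (e * z) := by linear_combination hz
  rw [h1]
  exact per_aux hN0 B z h

theorem inner_count' (h2 : (2 : k) ≠ 0) {G C₁ m1 n1 n0 : k[X]} (hC : C₁ ≠ 0) (hm1 : m1 ≠ 0)
    (hn1 : n1 ≠ 0) (hn0 : n0 ≠ 0) (hd : n1 ∣ C₁) (hG : IsCoprime G (C₁ * m1))
    (hc0 : IsCoprime (C₁ * m1) n0) {κ : k} (hκ : κ ≠ 0) {A : k[X]} (hA : IsCoprime A (C₁ * m1))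
    {ρ : ℕ} (hρ : (C₁ ^ 2 * m1 * (m1 * n1) * n0).natDegree ≤ ρ) (B₀ : k[X]) :
    ((LT k ρ).filter fun z => (C₁ ^ 2 * m1 ∣ G * (B₀ + z) ^ 2 - C κ * A ^ 3 ∧
      IsCoprime ((G * (B₀ + z) ^ 2 - C κ * A ^ 3) / (C₁ ^ 2 * m1)) (m1 * n1)) ∧
      IsCoprime (G * (B₀ + z) ^ 2 - C κ * A ^ 3) n0).card =
    Nat.card k ^ (ρ - (C₁ ^ 2 * m1 * (m1 * n1) * n0).natDegree) *
      (cc (C₁ * m1) G κ A * phi (m1 * n1) * hc n0 G κ A) := by
  have hN0 : C₁ ^ 2 * m1 ≠ 0 := mul_ne_zero (pow_ne_zero 2 hC) hm1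
  have hN1 : C₁ * m1 ≠ 0 := mul_ne_zero hC hm1
  have he0 : m1 * n1 ≠ 0 := mul_ne_zero hm1 hn1
  have hNe0 : C₁ ^ 2 * m1 * (m1 * n1) ≠ 0 := mul_ne_zero hN0 he0
  have hκ' : C κ * C κ⁻¹ = (1 : k[X]) := by rw [← C_mul, mul_inv_cancel₀ hκ, C_1]
  have hu1 : IsCoprime (C κ * A ^ 3) (C₁ * m1) := by
    obtain ⟨a, b, hab⟩ := (hA.pow_left (m := 3))
    exact ⟨C κ⁻¹ * a, b, by linear_combination hab + a * A ^ 3 * hκ'⟩
  have hNN : C₁ * m1 * C₁ = C₁ ^ 2 * m1 := by ring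
  have huN : IsCoprime (C κ * A ^ 3) (C₁ ^ 2 * m1) := by
    rw [← hNN]
    exact hu1.mul_right hu1.of_mul_right_left
  have hGN : IsCoprime G (C₁ ^ 2 * m1) := by
    rw [← hNN]
    exact hG.mul_right hG.of_mul_right_left
  have heN : m1 * n1 ∣ C₁ ^ 2 * m1 := by
    obtain ⟨c, rfl⟩ := hd
    exact ⟨n1 * c ^ 2, by ring⟩
  have hcop : IsCoprime (C₁ ^ 2 * m1 * (m1 * n1)) n0 := by
    obtain ⟨c, hc⟩ := hd
    have h3 : IsCoprime C₁ n0 := hc0.of_mul_left_left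
    have h4 : IsCoprime m1 n0 := hc0.of_mul_left_right
    have h5 : IsCoprime n1 n0 := by
      rw [hc] at h3
      exact h3.of_mul_left_left
    exact ((h3.pow_left).mul_left h4).mul_left (h4.mul_left h5)
  set N := C₁ ^ 2 * m1 with hN
  set e := m1 * n1 with he
  set u := C κ * A ^ 3 with hu
  -- periodicity
  have h10 : ((LT k ρ).filter fun z => (N ∣ G * (B₀ + z) ^ 2 - u ∧
      IsCoprime ((G * (B₀ + z) ^ 2 - u) / N) e) ∧ IsCoprime (G * (B₀ + z) ^ 2 - u) n0).card =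
      ((LT k ρ).filter fun z => (fun r => (N ∣ G * r ^ 2 - u ∧
        IsCoprime ((G * r ^ 2 - u) / N) e) ∧ IsCoprime (G * r ^ 2 - u) n0)
          ((B₀ + z) % (N * e * n0))).card := by
    refine congrArg Finset.card (Finset.filter_congr ?_)
    intro z _
    have h3 := dvd_mod_sub (B₀ + z) (N * e * n0)
    have h4 : N * e ∣ (B₀ + z) % (N * e * n0) - (B₀ + z) := (dvd_mul_right _ _).trans h3
    have h4' : N * e ∣ (B₀ + z) - (B₀ + z) % (N * e * n0) := by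
      rw [← neg_sub]
      exact (dvd_neg).2 h4
    have h5 : n0 ∣ (B₀ + z) - (B₀ + z) % (N * e * n0) := by
      rw [← neg_sub]
      exact (dvd_neg).2 ((dvd_mul_left _ _).trans h3)
    refine and_congr ⟨per_gen hN0 h4, per_gen hN0 h4'⟩ ?_
    exact cop_cube κ h5 (by rw [sub_self]; exact dvd_zero _)
  have h11 := card_interval (N * e * n0) (mul_ne_zero hNe0 hn0) hρ B₀
    (fun r => (N ∣ G * r ^ 2 - u ∧ IsCoprime ((G * r ^ 2 - u) / N) e) ∧
      IsCoprime (G * r ^ 2 - u) n0)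
  rw [h10]
  refine h11.trans ?_
  refine congrArg (HMul.hMul (Nat.card k ^ (ρ - (N * e * n0).natDegree))) ?_
  -- CRT
  have h12 := sum_crt hNe0 hn0 hcop
    (fun r => if N ∣ G * r ^ 2 - u ∧ IsCoprime ((G * r ^ 2 - u) / N) e then 1 else 0)
    (fun r => if IsCoprime (G * r ^ 2 - u) n0 then 1 else 0)
  have h13 : ∑ r ∈ LT k (N * e).natDegree,
      (if N ∣ G * r ^ 2 - u ∧ IsCoprime ((G * r ^ 2 - u) / N) e then 1 else 0) =
      cc (C₁ * m1) G κ A * phi e := by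
    have h14 := inner1 h2 hN0 he0 heN hGN huN (ρ := (N * e).natDegree) le_rfl 0
    simp only [zero_add, Nat.sub_self, pow_zero, one_mul] at h14
    have h15 := inner2 h2 hN1 hC (dvd_mul_right _ _) hG hu1
    rw [hNN] at h15
    rw [Finset.sum_boole, Nat.cast_id, h14, h15]
    rfl
  have h16 : ∑ r ∈ LT k n0.natDegree, (if IsCoprime (G * r ^ 2 - u) n0 then 1 else 0) =
      hc n0 G κ A := by
    rw [Finset.sum_boole, Nat.cast_id]
    rfl
  rw [h13, h16] at h12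
  rw [← h12, Finset.card_filter]
  refine Finset.sum_congr rfl fun r _ => ?_
  have h3 := dvd_mod_sub r (N * e)
  have h3' : N * e ∣ r - r % (N * e) := by
    rw [← neg_sub]
    exact (dvd_neg).2 h3
  have h4 : (N ∣ G * (r % (N * e)) ^ 2 - u ∧ IsCoprime ((G * (r % (N * e)) ^ 2 - u) / N) e) ↔
      (N ∣ G * r ^ 2 - u ∧ IsCoprime ((G * r ^ 2 - u) / N) e) :=
    ⟨per_gen hN0 h3', per_gen hN0 h3⟩
  have h5 : IsCoprime (G * (r % n0) ^ 2 - u) n0 ↔ IsCoprime (G * r ^ 2 - u) n0 :=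
    cop_cube κ (dvd_mod_sub r n0) (by rw [sub_self]; exact dvd_zero _)
  simp only [h4, h5]
  by_cases h6 : N ∣ G * r ^ 2 - u ∧ IsCoprime ((G * r ^ 2 - u) / N) e <;>
    by_cases h7 : IsCoprime (G * r ^ 2 - u) n0 <;> simp [h6, h7]

/-- The count of the pairs. -/
theorem pair_count' (h2 : (2 : k) ≠ 0) {G C₁ m1 mG n1 n0 : k[X]} (hC : C₁ ≠ 0) (hm1 : m1 ≠ 0)
    (hmG : mG ≠ 0) (hn1 : n1 ≠ 0) (hn0 : n0.Monic) (hsn0 : Squarefree n0) (hd : n1 ∣ C₁)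
    (hG : IsCoprime G (C₁ * m1)) (hGn : IsCoprime G n0)
    (hcop : IsCoprime (C₁ * m1) mG) (hcn : IsCoprime (C₁ * m1 * mG) n0) {κ : k} (hκ : κ ≠ 0)
    {a ρ : ℕ} (ha : (C₁ * m1 * mG * n0).natDegree ≤ a)
    (hρ : (C₁ ^ 2 * m1 * (m1 * n1) * n0).natDegree ≤ ρ)
    (B₀ : k[X] → k[X]) :
    ∑ A ∈ MD k a, (if IsCoprime A (C₁ * m1 * mG) then
      ((LT k ρ).filter fun z => (C₁ ^ 2 * m1 ∣ G * (B₀ A + z) ^ 2 - C κ * A ^ 3 ∧
        IsCoprime ((G * (B₀ A + z) ^ 2 - C κ * A ^ 3) / (C₁ ^ 2 * m1)) (m1 * n1)) ∧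
        IsCoprime (G * (B₀ A + z) ^ 2 - C κ * A ^ 3) n0).card else 0) =
    Nat.card k ^ (a - (C₁ * m1 * mG * n0).natDegree) *
      (Nat.card k ^ (ρ - (C₁ ^ 2 * m1 * (m1 * n1) * n0).natDegree) *
        (phi (C₁ * m1) * phi mG * phi (m1 * n1) * (Nat.card k ^ n0.natDegree * phi n0))) := by
  have hN1 : C₁ * m1 ≠ 0 := mul_ne_zero hC hm1
  have hN2 : C₁ * m1 * mG ≠ 0 := mul_ne_zero hN1 hmG
  have h3 : ∀ A ∈ MD k a, (if IsCoprime A (C₁ * m1 * mG) then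
      ((LT k ρ).filter fun z => (C₁ ^ 2 * m1 ∣ G * (B₀ A + z) ^ 2 - C κ * A ^ 3 ∧
        IsCoprime ((G * (B₀ A + z) ^ 2 - C κ * A ^ 3) / (C₁ ^ 2 * m1)) (m1 * n1)) ∧
        IsCoprime (G * (B₀ A + z) ^ 2 - C κ * A ^ 3) n0).card else 0) =
      (Nat.card k ^ (ρ - (C₁ ^ 2 * m1 * (m1 * n1) * n0).natDegree) * phi (m1 * n1)) *
        (fun r => (if IsCoprime r (C₁ * m1 * mG) then cc (C₁ * m1) G κ r else 0) * hc n0 G κ r)
          (A % (C₁ * m1 * mG * n0)) := by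
    intro A _
    show _ = _ * ((if IsCoprime (A % (C₁ * m1 * mG * n0)) (C₁ * m1 * mG) then
      cc (C₁ * m1) G κ (A % (C₁ * m1 * mG * n0)) else 0) * hc n0 G κ (A % (C₁ * m1 * mG * n0)))
    rw [coprime_mod (dvd_mul_right _ _), cc_mod ((dvd_mul_right _ _).trans (dvd_mul_right _ _)),
      hc_mod (dvd_mul_left _ _)]
    split_ifs with hA
    · rw [inner_count' h2 hC hm1 hn1 hn0.ne_zero hd hG hcn.of_mul_left_left hκ
        hA.of_mul_right_left hρ]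
      ring
    · rw [zero_mul, mul_zero]
  have h3' := sum_monic (C₁ * m1 * mG * n0) (mul_ne_zero hN2 hn0.ne_zero) ha
    (fun r => (if IsCoprime r (C₁ * m1 * mG) then cc (C₁ * m1) G κ r else 0) * hc n0 G κ r)
  rw [Finset.sum_congr rfl h3, ← Finset.mul_sum, h3']
  have h4 : ∑ r ∈ LT k (C₁ * m1 * mG).natDegree,
      (if IsCoprime r (C₁ * m1 * mG) then cc (C₁ * m1) G κ r else 0) =
      phi (C₁ * m1) * phi mG := by
    have h5 := sum_crt hN1 hmG hcop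
      (fun r => if IsCoprime r (C₁ * m1) then cc (C₁ * m1) G κ r else 0)
      (fun r => if IsCoprime r mG then 1 else 0)
    have h6 : ∑ r ∈ LT k (C₁ * m1).natDegree,
        (if IsCoprime r (C₁ * m1) then cc (C₁ * m1) G κ r else 0) = phi (C₁ * m1) :=
      unit_sum hN1 hG hκ
    have h7 : ∑ r ∈ LT k mG.natDegree, (if IsCoprime r mG then 1 else 0) = phi mG := by
      unfold phi
      rw [Finset.card_filter]
    rw [h6, h7] at h5
    rw [← h5]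
    apply Finset.sum_congr rfl
    intro r _
    show _ = (if IsCoprime (r % (C₁ * m1)) (C₁ * m1) then cc (C₁ * m1) G κ (r % (C₁ * m1)) else 0) *
      (if IsCoprime (r % mG) mG then 1 else 0)
    rw [coprime_mod', coprime_mod', cc_mod dvd_rfl, IsCoprime.mul_right_iff]
    by_cases h8 : IsCoprime r (C₁ * m1) <;> by_cases h9 : IsCoprime r mG <;> simp [h8, h9]
  have h10 : ∑ r ∈ LT k (C₁ * m1 * mG * n0).natDegree,
      (if IsCoprime r (C₁ * m1 * mG) then cc (C₁ * m1) G κ r else 0) * hc n0 G κ r =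
      (phi (C₁ * m1) * phi mG) * (Nat.card k ^ n0.natDegree * phi n0) := by
    have h11 := sum_crt hN2 hn0.ne_zero hcn
      (fun r => if IsCoprime r (C₁ * m1 * mG) then cc (C₁ * m1) G κ r else 0)
      (fun r => hc n0 G κ r)
    rw [h4, hc_sum G hκ n0 hn0 hsn0 hGn] at h11
    rw [← h11]
    refine Finset.sum_congr rfl fun r _ => ?_
    show _ = (if IsCoprime (r % (C₁ * m1 * mG)) (C₁ * m1 * mG) then
      cc (C₁ * m1) G κ (r % (C₁ * m1 * mG)) else 0) * hc n0 G κ (r % n0)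
    rw [coprime_mod', cc_mod (dvd_mul_right _ _), hc_mod dvd_rfl]
  rw [h10]
  ring

end

end Pool.Agent.Y153.SV
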