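import Pool.Agent.Y153.SV.GA

set_option autoImplicit false
set_option maxHeartbeats 1000000

/-!
Sieve for `Y711`: the upper bound for the number of the solutions with conditions at finitely many
primes.
-/

open Polynomial Classical

namespace Pool.Agent.Y153.SV

open Pool.Agent.Y711 Pool.Agent.W313.Hyp

section

variable {k : Type} [Field k] [Finite k]

theorem wt_le_one (m G : k[X]) : wt m G ≤ 1 := by
  have hq1 : (1 : ℝ) < Nat.card k := q_one_lt
  have hq0 : (0 : ℝ) < Nat.card k := by linarith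
  have h1 : (phi m : ℝ) ≤ (Nat.card k : ℝ) ^ m.natDegree := by exact_mod_cast phi_le m
  have h2 : (phi (mo m G) : ℝ) ≤ (Nat.card k : ℝ) ^ (2 * (mo m G).natDegree) := by
    have h3 : (phi (mo m G) : ℝ) ≤ (Nat.card k : ℝ) ^ (mo m G).natDegree := by
      exact_mod_cast phi_le (mo m G)
    exact h3.trans (pow_le_pow_right₀ hq1.le (by omega))
  unfold wt
  rw [div_le_one (mul_pos (pow_pos hq0 _) (pow_pos hq0 _))]
  exact mul_le_mul h1 h2 (Nat.cast_nonneg _) (pow_nonneg hq0.le _)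

/-- the weight, supported on the admissible `G` -/
noncomputable def wS (m n G : k[X]) : ℝ := if Squarefree G ∧ IsCoprime G n then wG m n G else 0

theorem wS_nonneg (m n G : k[X]) : 0 ≤ wS m n G := by
  unfold wS
  split_ifs
  · exact wG_nonneg m n G
  · exact le_rfl

theorem sum_small {q : ℝ} (hq : 1 < q) (t T : ℕ) :
    ∑ a ∈ Finset.range t, (if a < T then q ^ a else 0) ≤ ∑ a ∈ Finset.range T, q ^ a := by
  rw [← Finset.sum_filter]
  refine Finset.sum_le_sum_of_subset_of_nonneg ?_ fun i _ _ => by positivity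
  intro a ha
  rw [Finset.mem_filter] at ha
  rw [Finset.mem_range]
  exact ha.2

/-- the number of the solutions with given `G` -/
theorem G_bound' (h2 : (2 : k) ≠ 0) {g : ℕ} {m n : k[X]} (hm : m.Monic) (hn : n.Monic)
    (hsq : Squarefree (m * n)) (hg : 4 * (m.natDegree + n.natDegree) ≤ g) (G : k[X]) :
    (((SFn g m n).filter fun x => x.1 = G).card : ℝ) ≤
      (Nat.card k : ℝ) ^ (2 * g + 1) * ((Nat.card k : ℝ) / (Nat.card k - 1)) *
        (wS m n G / (Nat.card k : ℝ) ^ (2 * G.natDegree)) +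
      (Nat.card k : ℝ) ^ (g + 1) / (Nat.card k : ℝ) ^ G.natDegree *
        ∑ a ∈ Finset.range ((2 * g + 1 + 2 * (m.natDegree + n.natDegree)) / 3 + 1),
          (Nat.card k : ℝ) ^ a := by
  have hq1 : (1 : ℝ) < Nat.card k := q_one_lt
  have hq0 : (0 : ℝ) < Nat.card k := by linarith
  have hq : (Nat.card k : ℝ) ≠ 0 := hq0.ne'
  have hw := wS_nonneg m n G
  have hq2 : (0 : ℝ) < Nat.card k - 1 := by linarith
  set T := (2 * g + 1 + 2 * (m.natDegree + n.natDegree)) / 3 + 1 with hT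
  have hE : 0 ≤ ∑ a ∈ Finset.range T, (Nat.card k : ℝ) ^ a :=
    Finset.sum_nonneg fun a _ => pow_nonneg hq0.le _
  rcases Finset.eq_empty_or_nonempty ((SFn g m n).filter fun x => x.1 = G) with he | hne
  · rw [he, Finset.card_empty, Nat.cast_zero]
    refine add_nonneg (mul_nonneg (mul_nonneg (pow_nonneg hq0.le _) (div_nonneg hq0.le hq2.le))
      (div_nonneg hw (pow_nonneg hq0.le _))) (mul_nonneg (div_nonneg (pow_nonneg hq0.le _)
      (pow_nonneg hq0.le _)) hE)
  obtain ⟨x0, hx0⟩ := hne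
  rw [Finset.mem_filter, mem_SFn] at hx0
  obtain ⟨⟨D0, hD0, hs0, hDn0⟩, hG0⟩ := hx0
  rw [hG0] at hs0
  have hdeg0 := hs0.deg
  have hsG : Squarefree G := hD0.sqf.squarefree_of_dvd hs0.dvd
  have hGn : IsCoprime G n := hDn0.of_isCoprime_of_dvd_left hs0.dvd
  have hwS : wS m n G = wG m n G := by
    unfold wS
    rw [if_pos ⟨hsG, hGn⟩]
  obtain ⟨t, ht⟩ : ∃ t, G.natDegree + t = g := ⟨g - G.natDegree, by omega⟩
  rw [Finset.card_eq_sum_card_fiberwise (f := fun x => x.2.1.natDegree)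
    (t := Finset.range (t + 1)) (by
      intro x hx
      rw [Finset.mem_coe, Finset.mem_filter, mem_SFn] at hx
      obtain ⟨⟨D, hD, hs, _⟩, h3⟩ := hx
      rw [h3] at hs
      have := hs.deg
      rw [Finset.mem_coe, Finset.mem_range]
      show x.2.1.natDegree < t + 1
      omega)]
  push_cast
  have hterm : ∀ a ∈ Finset.range (t + 1), ((((SFn g m n).filter fun x => x.1 = G).filter
      fun x => x.2.1.natDegree = a).card : ℝ) ≤
      (Nat.card k : ℝ) ^ a * ((Nat.card k : ℝ) ^ (g + 1) / (Nat.card k : ℝ) ^ G.natDegree *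
        wS m n G) + (Nat.card k : ℝ) ^ (g + 1) / (Nat.card k : ℝ) ^ G.natDegree *
          (if a < T then (Nat.card k : ℝ) ^ a else 0) := by
    intro a _
    rw [Finset.filter_filter]
    have hpow : (Nat.card k : ℝ) ^ (a + g + 1) = (Nat.card k : ℝ) ^ a * (Nat.card k : ℝ) ^ (g + 1) := by
      rw [show a + g + 1 = a + (g + 1) by ring, pow_add]
    have hc0 : 0 ≤ (Nat.card k : ℝ) ^ (g + 1) / (Nat.card k : ℝ) ^ G.natDegree :=
      div_nonneg (pow_nonneg hq0.le _) (pow_nonneg hq0.le _)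
    by_cases hla : 2 * g + 2 + 2 * (m.natDegree + n.natDegree) ≤ 3 * a
    · refine (GA_sharp h2 hm hn hsq hg G a hla).trans ?_
      rw [← hwS, hpow]
      have h3 : 0 ≤ (Nat.card k : ℝ) ^ (g + 1) / (Nat.card k : ℝ) ^ G.natDegree *
          (if a < T then (Nat.card k : ℝ) ^ a else 0) := by
        refine mul_nonneg hc0 ?_
        split_ifs
        · exact pow_nonneg hq0.le _
        · exact le_rfl
      have h4 : (Nat.card k : ℝ) ^ a * (Nat.card k : ℝ) ^ (g + 1) /
          (Nat.card k : ℝ) ^ G.natDegree * wS m n G =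
          (Nat.card k : ℝ) ^ a * ((Nat.card k : ℝ) ^ (g + 1) / (Nat.card k : ℝ) ^ G.natDegree *
        wS m n G) := by ring
      rw [h4]
      linarith
    · have haT : a < T := by omega
      rw [if_pos haT]
      have h3 : (((SFn g m n).filter fun x => x.1 = G ∧ x.2.1.natDegree = a).card : ℝ) ≤
          (((SF g m).filter fun x => x.1 = G ∧ x.2.1.natDegree = a).card : ℝ) := by
        exact_mod_cast Finset.card_le_card (Finset.filter_subset_filter _ (SFn_sub g m n))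
      have h4 := GA_bound h2 (g := g) (m := m) (by omega) G a
      have h5 : (Nat.card k : ℝ) ^ (a + g + 1) / (Nat.card k : ℝ) ^ G.natDegree * wt m G ≤
          (Nat.card k : ℝ) ^ (a + g + 1) / (Nat.card k : ℝ) ^ G.natDegree * 1 :=
        mul_le_mul_of_nonneg_left (wt_le_one m G)
          (div_nonneg (pow_nonneg hq0.le _) (pow_nonneg hq0.le _))
      have h6 : (Nat.card k : ℝ) ^ (a + g + 1) / (Nat.card k : ℝ) ^ G.natDegree * 1 =
          (Nat.card k : ℝ) ^ (g + 1) / (Nat.card k : ℝ) ^ G.natDegree *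
            (Nat.card k : ℝ) ^ a := by
        rw [hpow]
        ring
      have h7 : 0 ≤ (Nat.card k : ℝ) ^ a * ((Nat.card k : ℝ) ^ (g + 1) /
          (Nat.card k : ℝ) ^ G.natDegree * wS m n G) :=
        mul_nonneg (pow_nonneg hq0.le _) (mul_nonneg hc0 hw)
      linarith
  refine (Finset.sum_le_sum hterm).trans ?_
  rw [Finset.sum_add_distrib]
  refine add_le_add ?_ ?_
  · rw [← Finset.sum_mul]
    have h3 := geom_le hq1 t
    have h4 : (Nat.card k : ℝ) ^ (2 * g + 1) * ((Nat.card k : ℝ) / (Nat.card k - 1)) *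
        (wS m n G / (Nat.card k : ℝ) ^ (2 * G.natDegree)) =
        ((Nat.card k : ℝ) ^ t * ((Nat.card k : ℝ) / (Nat.card k - 1))) *
          ((Nat.card k : ℝ) ^ (g + 1) / (Nat.card k : ℝ) ^ G.natDegree * wS m n G) := by
      have h5 : (Nat.card k : ℝ) ^ (2 * g + 1) =
          (Nat.card k : ℝ) ^ t * (Nat.card k : ℝ) ^ (g + 1) * (Nat.card k : ℝ) ^ G.natDegree := by
        rw [← pow_add, ← pow_add]
        congr 1
        omega
      rw [h5, two_mul, pow_add]
      field_simp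
      ring
    rw [h4]
    exact mul_le_mul_of_nonneg_right h3 (mul_nonneg (div_nonneg (pow_nonneg hq0.le _)
      (pow_nonneg hq0.le _)) hw)
  · rw [← Finset.mul_sum]
    exact mul_le_mul_of_nonneg_left (sum_small hq1 (t + 1) T)
      (div_nonneg (pow_nonneg hq0.le _) (pow_nonneg hq0.le _))

/-- shifted sums -/
theorem shift_le {f : ℕ → ℝ} (h0 : ∀ i, 0 ≤ f i) (hs : Summable f) (e M : ℕ) :
    ∑ j ∈ Finset.range M, (if e ≤ j then f (j - e) else 0) ≤ ∑' i, f i := by
  have h1 : ∑ j ∈ Finset.range M, (if e ≤ j then f (j - e) else 0) ≤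
      ∑ i ∈ Finset.range M, f i := by
    rw [← Finset.sum_filter]
    have h2 : ∑ j ∈ (Finset.range M).filter (fun j => e ≤ j), f (j - e) =
        ∑ i ∈ ((Finset.range M).filter (fun j => e ≤ j)).image (fun j => j - e), f i := by
      rw [Finset.sum_image]
      intro x hx y hy hxy
      rw [Finset.mem_coe, Finset.mem_filter] at hx hy
      have h3 : x - e = y - e := hxy
      omega
    rw [h2]
    refine Finset.sum_le_sum_of_subset_of_nonneg ?_ fun i _ _ => h0 i
    intro i hi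
    rw [Finset.mem_image] at hi
    obtain ⟨j, hj, rfl⟩ := hi
    rw [Finset.mem_filter, Finset.mem_range] at hj
    rw [Finset.mem_range]
    omega
  exact h1.trans (hs.sum_le_tsum _ fun i _ => h0 i)

theorem wG_eq {m n : k[X]} (hm : m.Monic) (hsm : Squarefree m) (G : k[X]) :
    wG m n G = rphi m ^ 2 * ((Nat.card k : ℝ) ^ m.natDegree)⁻¹ *
      (Nat.card k : ℝ) ^ (mgcd G m).natDegree * (rphi n ^ 2 * sg n) := by
  have hq0 : (0 : ℝ) < Nat.card k := qpos
  have hmm := mo_mul hm.ne_zero G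
  have hmo0 : mo m G ≠ 0 := (mo_monic hm G).ne_zero
  have hmg0 : mgcd G m ≠ 0 := (mgcd_monic hm.ne_zero).ne_zero
  have hdm : m.natDegree = (mo m G).natDegree + (mgcd G m).natDegree := by
    conv_lhs => rw [← hmm]
    exact natDegree_mul hmo0 hmg0
  have hcop : IsCoprime (mo m G) (mgcd G m) :=
    ((mo_cop hsm G).of_isCoprime_of_dvd_left (mgcd_dvd_left G m)).symm
  have h4 : phi m = phi (mo m G) * phi (mgcd G m) := by
    conv_lhs => rw [← hmm]
    exact phi_mul hmo0 hmg0 hcop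
  have h4' : (phi m : ℝ) = phi (mo m G) * phi (mgcd G m) := by exact_mod_cast h4
  unfold wG
  congr 1
  unfold wt rphi
  rw [h4', hdm, pow_add, mul_comm 2, pow_mul]
  field_simp

theorem wS_sum_deg {m n : k[X]} (hm : m.Monic) (hn : n.Monic) (hsq : Squarefree (m * n)) (j : ℕ) :
    ∑ G ∈ MD k j, wS m n G / (Nat.card k : ℝ) ^ (2 * j) ≤
      ∑ e ∈ dv m, (rphi m ^ 2 * ((Nat.card k : ℝ) ^ m.natDegree)⁻¹ * (rphi n ^ 2 * sg n) *
        ((Nat.card k : ℝ) ^ e.natDegree)⁻¹) * (if e.natDegree ≤ j then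
          (sc (m * n) (j - e.natDegree) : ℝ) / (Nat.card k : ℝ) ^ (2 * (j - e.natDegree))
            else 0) := by
  have hq0 : (0 : ℝ) < Nat.card k := qpos
  have hsm : Squarefree m := hsq.squarefree_of_dvd (dvd_mul_right _ _)
  set V := rphi n ^ 2 * sg n with hV
  have hV0 : 0 ≤ V := mul_nonneg (pow_nonneg (rphi_nonneg _) _) (sg_nonneg _)
  set R := rphi m ^ 2 * ((Nat.card k : ℝ) ^ m.natDegree)⁻¹ with hR
  have hR0 : 0 ≤ R := mul_nonneg (pow_nonneg (rphi_nonneg _) _)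
    (inv_nonneg.2 (pow_nonneg hq0.le _))
  rw [← Finset.sum_fiberwise_of_maps_to (s := MD k j) (t := dv m) (g := fun G => mgcd G m) (by
    intro G _
    exact (mem_dv hm.ne_zero).2 ⟨mgcd_monic hm.ne_zero, mgcd_dvd_right G m⟩)]
  apply Finset.sum_le_sum
  intro e he
  rw [mem_dv hm.ne_zero] at he
  obtain ⟨hem, hed⟩ := he
  have h1 : ∀ G ∈ (MD k j).filter (fun G => mgcd G m = e), wS m n G / (Nat.card k : ℝ) ^ (2 * j) =
      if Squarefree G ∧ IsCoprime G n then R * (Nat.card k : ℝ) ^ e.natDegree * V /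
        (Nat.card k : ℝ) ^ (2 * j) else 0 := by
    intro G hG
    rw [Finset.mem_filter] at hG
    unfold wS
    split_ifs
    · rw [wG_eq hm hsm, hG.2]
    · rw [zero_div]
  rw [Finset.sum_congr rfl h1, ← Finset.sum_filter, Finset.sum_const, nsmul_eq_mul,
    Finset.filter_filter]
  by_cases hej : e.natDegree ≤ j
  · rw [if_pos hej]
    have hcard : ((MD k j).filter (fun G => mgcd G m = e ∧ Squarefree G ∧ IsCoprime G n)).card ≤
        sc (m * n) (j - e.natDegree) := by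
      unfold sc
      refine (Finset.card_le_card (t := ((MD k (j - e.natDegree)).filter
        fun G' => IsCoprime G' (m * n)).image fun G' => e * G') ?_).trans Finset.card_image_le
      intro G hG
      rw [Finset.mem_filter, mem_MD] at hG
      obtain ⟨⟨hG1, hG2⟩, hG3, hG4, hG5⟩ := hG
      obtain ⟨G', hG'⟩ : e ∣ G := hG3 ▸ mgcd_dvd_left G m
      rw [Finset.mem_image]
      refine ⟨G', ?_, hG'.symm⟩
      have h2 : G'.Monic := hem.of_mul_monic_left (hG' ▸ hG1)
      rw [Finset.mem_filter, mem_MD]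
      refine ⟨⟨h2, ?_⟩, ?_⟩
      · rw [hG', natDegree_mul hem.ne_zero h2.ne_zero] at hG2
        omega
      · refine IsCoprime.mul_right ?_ ?_
        · refine isCoprime_of_prime_dvd (fun h => h2.ne_zero h.1) fun P hP h3 h4 => ?_
          have h5 : P ∣ e := by
            rw [← hG3]
            exact dvd_mgcd (hG' ▸ h3.mul_left e) h4
          exact hP.not_isUnit (hG4 P (hG' ▸ mul_dvd_mul h5 h3))
        · exact hG5.of_isCoprime_of_dvd_left (hG' ▸ dvd_mul_left _ _)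
    have hcard' : (((MD k j).filter (fun G => mgcd G m = e ∧ Squarefree G ∧
        IsCoprime G n)).card : ℝ) ≤ sc (m * n) (j - e.natDegree) := by exact_mod_cast hcard
    have hpos : 0 ≤ R * (Nat.card k : ℝ) ^ e.natDegree * V / (Nat.card k : ℝ) ^ (2 * j) :=
      div_nonneg (mul_nonneg (mul_nonneg hR0 (pow_nonneg hq0.le _)) hV0) (pow_nonneg hq0.le _)
    refine (mul_le_mul_of_nonneg_right hcard' hpos).trans (le_of_eq ?_)
    have h3 : (Nat.card k : ℝ) ^ (2 * j) = (Nat.card k : ℝ) ^ e.natDegree *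
        (Nat.card k : ℝ) ^ e.natDegree * (Nat.card k : ℝ) ^ (2 * (j - e.natDegree)) := by
      rw [← pow_add, ← pow_add]
      congr 1
      omega
    rw [h3]
    field_simp
  · rw [if_neg hej, mul_zero]
    have hemp : (MD k j).filter (fun G => mgcd G m = e ∧ Squarefree G ∧ IsCoprime G n) = ∅ := by
      rw [Finset.filter_eq_empty_iff]
      rintro G hG ⟨hG3, _⟩
      rw [mem_MD] at hG
      have h1 : e ∣ G := hG3 ▸ mgcd_dvd_left G m
      have h2 := natDegree_le_of_dvd h1 hG.1.ne_zero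
      omega
    rw [hemp, Finset.card_empty, Nat.cast_zero, zero_mul]

theorem wS_sum {m n : k[X]} (hm : m.Monic) (hn : n.Monic) (hsq : Squarefree (m * n)) (M : ℕ) :
    ∑ j ∈ Finset.range M, ∑ G ∈ MD k j, wS m n G / (Nat.card k : ℝ) ^ (2 * j) ≤
      (Nat.card k : ℝ) / (Nat.card k - 1) * wmn m n := by
  have hq0 : (0 : ℝ) < Nat.card k := qpos
  rw [wmn_eq hm hn hsq]
  set V := rphi n ^ 2 * sg n with hV
  have hV0 : 0 ≤ V := mul_nonneg (pow_nonneg (rphi_nonneg _) _) (sg_nonneg _)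
  set R := rphi m ^ 2 * ((Nat.card k : ℝ) ^ m.natDegree)⁻¹ with hR
  have hR0 : 0 ≤ R := mul_nonneg (pow_nonneg (rphi_nonneg _) _)
    (inv_nonneg.2 (pow_nonneg hq0.le _))
  refine (Finset.sum_le_sum fun j _ => wS_sum_deg hm hn hsq j).trans ?_
  rw [Finset.sum_comm]
  have h1 : ∀ e ∈ dv m, ∑ j ∈ Finset.range M, (R * V * ((Nat.card k : ℝ) ^ e.natDegree)⁻¹) *
      (if e.natDegree ≤ j then
        (sc (m * n) (j - e.natDegree) : ℝ) / (Nat.card k : ℝ) ^ (2 * (j - e.natDegree)) else 0) ≤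
      (R * V * ((Nat.card k : ℝ) ^ e.natDegree)⁻¹) * Zs (m * n) := by
    intro e _
    rw [← Finset.mul_sum]
    refine mul_le_mul_of_nonneg_left ?_ (mul_nonneg (mul_nonneg hR0 hV0)
      (inv_nonneg.2 (pow_nonneg hq0.le _)))
    exact shift_le (f := fun i => (sc (m * n) i : ℝ) / (Nat.card k : ℝ) ^ (2 * i))
      (fun i => by positivity) (sc_summable (m * n)) e.natDegree M
  refine (Finset.sum_le_sum h1).trans (le_of_eq ?_)
  rw [← Finset.sum_mul, ← Finset.mul_sum]
  have h2 : ∑ e ∈ dv m, ((Nat.card k : ℝ) ^ e.natDegree)⁻¹ = sg m := rfl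
  rw [h2]
  ring

/-- the number of all solutions -/
theorem total' (h2 : (2 : k) ≠ 0) {g : ℕ} {m n : k[X]} (hm : m.Monic) (hn : n.Monic)
    (hsq : Squarefree (m * n)) (hg : 4 * (m.natDegree + n.natDegree) ≤ g) :
    ((SFn g m n).card : ℝ) ≤ (Nat.card k : ℝ) ^ (2 * g + 1) *
      (((Nat.card k : ℝ) / (Nat.card k - 1)) ^ 2 * wmn m n) +
      ((g : ℝ) + 1) * ((Nat.card k : ℝ) ^ (g + 1) *
        ∑ a ∈ Finset.range ((2 * g + 1 + 2 * (m.natDegree + n.natDegree)) / 3 + 1),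
          (Nat.card k : ℝ) ^ a) := by
  have hq1 : (1 : ℝ) < Nat.card k := q_one_lt
  have hq0 : (0 : ℝ) < Nat.card k := by linarith
  have hq2 : (0 : ℝ) < Nat.card k - 1 := by linarith
  set E := ∑ a ∈ Finset.range ((2 * g + 1 + 2 * (m.natDegree + n.natDegree)) / 3 + 1),
          (Nat.card k : ℝ) ^ a with hE
  rw [Finset.card_eq_sum_card_fiberwise (f := fun x => x.1.natDegree)
    (t := Finset.range (g + 1)) (by
      intro x hx
      rw [Finset.mem_coe, mem_SFn] at hx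
      obtain ⟨D, hD, hs, _⟩ := hx
      have := hs.deg
      rw [Finset.mem_coe, Finset.mem_range]
      show x.1.natDegree < g + 1
      omega)]
  push_cast
  have h1 : ∀ j ∈ Finset.range (g + 1), (((SFn g m n).filter fun x => x.1.natDegree = j).card : ℝ) ≤
      ((Nat.card k : ℝ) ^ (2 * g + 1) * ((Nat.card k : ℝ) / (Nat.card k - 1))) *
        (∑ G ∈ MD k j, wS m n G / (Nat.card k : ℝ) ^ (2 * j)) + (Nat.card k : ℝ) ^ (g + 1) * E := by
    intro j _
    rw [Finset.card_eq_sum_card_fiberwise (f := fun x => x.1) (t := MD k j) (by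
      intro x hx
      rw [Finset.mem_coe, Finset.mem_filter, mem_SFn] at hx
      obtain ⟨⟨D, hD, hs, _⟩, h3⟩ := hx
      rw [Finset.mem_coe, mem_MD]
      exact ⟨hs.hG, h3⟩)]
    push_cast
    have h3 : ∀ G ∈ MD k j, ((((SFn g m n).filter fun x => x.1.natDegree = j).filter
        fun x => x.1 = G).card : ℝ) ≤ (Nat.card k : ℝ) ^ (2 * g + 1) *
          ((Nat.card k : ℝ) / (Nat.card k - 1)) * (wS m n G / (Nat.card k : ℝ) ^ (2 * j)) +
          (Nat.card k : ℝ) ^ (g + 1) / (Nat.card k : ℝ) ^ j * E := by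
      intro G hG
      rw [mem_MD] at hG
      rw [Finset.filter_filter]
      have h4 := G_bound' h2 hm hn hsq hg G
      rw [hG.2] at h4
      refine le_trans ?_ h4
      exact_mod_cast Finset.card_le_card (fun x hx => by
        rw [Finset.mem_filter] at hx ⊢
        exact ⟨hx.1, hx.2.2⟩)
    refine (Finset.sum_le_sum h3).trans (le_of_eq ?_)
    rw [Finset.sum_add_distrib, ← Finset.mul_sum, Finset.sum_const, card_MD, nsmul_eq_mul]
    push_cast
    congr 1
    have h5 : (Nat.card k : ℝ) ^ j ≠ 0 := pow_ne_zero _ hq0.ne'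
    field_simp
  refine (Finset.sum_le_sum h1).trans ?_
  rw [Finset.sum_add_distrib, ← Finset.mul_sum, Finset.sum_const, Finset.card_range, nsmul_eq_mul]
  push_cast
  refine add_le_add ?_ le_rfl
  refine (mul_le_mul_of_nonneg_left (wS_sum hm hn hsq (g + 1))
    (mul_nonneg (pow_nonneg hq0.le _) (div_nonneg hq0.le hq2.le))).trans (le_of_eq ?_)
  ring

theorem ev_small {ε : ℝ} (hε : 0 < ε) (L : ℕ) :
    ∃ U : ℕ, ∀ u : ℕ, U ≤ u → 2 * (3 * (u : ℝ) + 2 + 2 * L) ≤ ε * 2 ^ u := by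
  have h1 := tendsto_pow_const_mul_const_pow_of_abs_lt_one 1 (r := (1 / 2 : ℝ))
    (by rw [abs_of_pos (by norm_num)]; norm_num)
  have h2 := tendsto_pow_atTop_nhds_zero_of_lt_one (r := (1 / 2 : ℝ)) (by norm_num) (by norm_num)
  have h3 := (h1.const_mul 6).add (h2.const_mul (4 + 4 * (L : ℝ)))
  rw [mul_zero, mul_zero, add_zero] at h3
  have h4 := h3.eventually_le_const hε
  rw [Filter.eventually_atTop] at h4
  obtain ⟨U, hU⟩ := h4
  refine ⟨U, fun u hu => ?_⟩
  have h5 := hU u hu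
  have h6 : (0 : ℝ) < 2 ^ u := by positivity
  have h7 : (1 / 2 : ℝ) ^ u * 2 ^ u = 1 := by
    rw [← mul_pow]
    norm_num
  have h8 : (6 * ((u : ℝ) ^ 1 * (1 / 2) ^ u) + (4 + 4 * (L : ℝ)) * (1 / 2) ^ u) * 2 ^ u ≤
      ε * 2 ^ u := mul_le_mul_of_nonneg_right h5 h6.le
  have h9 : (6 * ((u : ℝ) ^ 1 * (1 / 2) ^ u) + (4 + 4 * (L : ℝ)) * (1 / 2) ^ u) * 2 ^ u =
      (6 * (u : ℝ) + (4 + 4 * L)) * ((1 / 2 : ℝ) ^ u * 2 ^ u) := by ring
  rw [h9, h7, mul_one] at h8
  linarith

/-- S1 -/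
theorem S1 (h2 : (2 : k) ≠ 0) : StS1 k := by
  intro m n hm hn hsq ε hε
  have hq1 : (1 : ℝ) < Nat.card k := q_one_lt
  have hq0 : (0 : ℝ) < Nat.card k := by linarith
  have hq2 : (2 : ℝ) ≤ Nat.card k := by
    have : 1 < Nat.card k := Finite.one_lt_card
    exact_mod_cast this
  set L := m.natDegree + n.natDegree with hL
  obtain ⟨U, hU⟩ := ev_small hε L
  refine ⟨4 * L + 3 * U + 2 * L + 1, fun g hg => ?_⟩
  have h1 := total' h2 hm hn hsq (g := g) (by omega)
  refine h1.trans ?_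
  rw [mul_add ((Nat.card k : ℝ) ^ (2 * g + 1)), ← hL]
  refine add_le_add (le_refl _) ?_
  set T := (2 * g + 1 + 2 * L) / 3 with hT
  obtain ⟨u, hu⟩ : ∃ u, g = T + u := ⟨g - T, by omega⟩
  have huU : U ≤ u := by omega
  have hgu : g + 1 ≤ 3 * u + 2 + 2 * L := by omega
  have h3 : ∑ a ∈ Finset.range (T + 1), (Nat.card k : ℝ) ^ a ≤ (Nat.card k : ℝ) ^ T * 2 := by
    refine (geom_le hq1 T).trans (mul_le_mul_of_nonneg_left ?_ (pow_nonneg hq0.le _))
    rw [div_le_iff₀ (by linarith)]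
    linarith
  have h4 := hU u huU
  have h5 : (2 : ℝ) ^ u ≤ (Nat.card k : ℝ) ^ u := pow_le_pow_left₀ (by norm_num) hq2 u
  have h6 : ((g : ℝ) + 1) ≤ 3 * (u : ℝ) + 2 + 2 * L := by exact_mod_cast hgu
  have h7 : 2 * ((g : ℝ) + 1) ≤ ε * (Nat.card k : ℝ) ^ u := by
    calc 2 * ((g : ℝ) + 1) ≤ 2 * (3 * (u : ℝ) + 2 + 2 * L) := by linarith
      _ ≤ ε * 2 ^ u := h4
      _ ≤ _ := mul_le_mul_of_nonneg_left h5 hε.le
  have h8 : (Nat.card k : ℝ) ^ (2 * g + 1) =
      (Nat.card k : ℝ) ^ (g + 1) * (Nat.card k : ℝ) ^ T * (Nat.card k : ℝ) ^ u := by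
    rw [← pow_add, ← pow_add]
    congr 1
    omega
  have hA : 0 ≤ (Nat.card k : ℝ) ^ (g + 1) := pow_nonneg hq0.le _
  have hB : 0 ≤ (Nat.card k : ℝ) ^ T := pow_nonneg hq0.le _
  calc ((g : ℝ) + 1) * ((Nat.card k : ℝ) ^ (g + 1) *
        ∑ a ∈ Finset.range (T + 1), (Nat.card k : ℝ) ^ a)
      ≤ ((g : ℝ) + 1) * ((Nat.card k : ℝ) ^ (g + 1) * ((Nat.card k : ℝ) ^ T * 2)) :=
        mul_le_mul_of_nonneg_left (mul_le_mul_of_nonneg_left h3 hA) (by positivity)
    _ = (Nat.card k : ℝ) ^ (g + 1) * (Nat.card k : ℝ) ^ T * (2 * ((g : ℝ) + 1)) := by ring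
    _ ≤ (Nat.card k : ℝ) ^ (g + 1) * (Nat.card k : ℝ) ^ T * (ε * (Nat.card k : ℝ) ^ u) :=
        mul_le_mul_of_nonneg_left h7 (mul_nonneg hA hB)
    _ = (Nat.card k : ℝ) ^ (2 * g + 1) * ε := by rw [h8]; ring

end

end Pool.Agent.Y153.SV
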